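import Pool.Agent.Lib_helper24.SQ.PL

/-!
# Abstract Selberg endgame: basic Fourier lemmas (MP_77948b_nt)
-/

noncomputable section

namespace Pool.Agent.ABS

open Complex MeasureTheory Filter Topology
open Pool.Agent.SQS (hat PL1 PL2 hat_eq_comp)

/-- bounded + integrable + measurable, closed under the operations we need. -/
structure Nice (h : ℝ → ℂ) : Prop where
  meas : Measurable h
  int : Integrable h
  bdd : ∃ B : ℝ, ∀ u, ‖h u‖ ≤ B

theorem Nice.sq {h : ℝ → ℂ} (H : Nice h) : Integrable (fun u => ‖h u‖ ^ 2) := by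
  obtain ⟨B, hB⟩ := H.bdd
  have : (fun u => ‖h u‖ ^ 2) = fun u => ‖h u‖ * ‖h u‖ := by funext u; ring
  rw [this]
  refine H.int.norm.bdd_mul (c := B) H.meas.norm.aestronglyMeasurable
    (Eventually.of_forall fun u => ?_)
  rw [norm_norm]; exact hB u

theorem Nice.shift {h : ℝ → ℂ} (H : Nice h) (a : ℝ) : Nice (fun u => h (u + a)) := by
  refine ⟨H.meas.comp (measurable_id.add_const a), H.int.comp_add_right a, ?_⟩
  obtain ⟨B, hB⟩ := H.bdd
  exact ⟨B, fun u => hB _⟩

theorem Nice.const_mul {h : ℝ → ℂ} (H : Nice h) (c : ℂ) : Nice (fun u => c * h u) := by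
  refine ⟨H.meas.const_mul c, H.int.const_mul c, ?_⟩
  obtain ⟨B, hB⟩ := H.bdd
  refine ⟨‖c‖ * B, fun u => ?_⟩
  rw [norm_mul]
  exact mul_le_mul_of_nonneg_left (hB u) (norm_nonneg _)

theorem Nice.add {g h : ℝ → ℂ} (G : Nice g) (H : Nice h) : Nice (fun u => g u + h u) := by
  refine ⟨G.meas.add H.meas, G.int.add H.int, ?_⟩
  obtain ⟨B, hB⟩ := G.bdd
  obtain ⟨B', hB'⟩ := H.bdd
  exact ⟨B + B', fun u => (norm_add_le _ _).trans (add_le_add (hB u) (hB' u))⟩

theorem Nice.sub {g h : ℝ → ℂ} (G : Nice g) (H : Nice h) : Nice (fun u => g u - h u) := by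
  refine ⟨G.meas.sub H.meas, G.int.sub H.int, ?_⟩
  obtain ⟨B, hB⟩ := G.bdd
  obtain ⟨B', hB'⟩ := H.bdd
  exact ⟨B + B', fun u => (norm_sub_le _ _).trans (add_le_add (hB u) (hB' u))⟩

theorem Nice.sum {ι : Type*} (s : Finset ι) {h : ι → ℝ → ℂ} (H : ∀ i ∈ s, Nice (h i)) :
    Nice (fun u => ∑ i ∈ s, h i u) := by
  classical
  induction s using Finset.induction_on with
  | empty =>
    simp only [Finset.sum_empty]
    exact ⟨measurable_const, integrable_zero _ _ _, 0, fun _ => by simp⟩
  | insert a s ha ih =>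
    simp only [Finset.sum_insert ha]
    exact (H a (Finset.mem_insert_self _ _)).add
      (ih fun i hi => H i (Finset.mem_insert_of_mem hi))

theorem Nice.conj_neg {h : ℝ → ℂ} (H : Nice h) : Nice (fun u => starRingEnd ℂ (h (-u))) := by
  refine ⟨Complex.continuous_conj.measurable.comp (H.meas.comp measurable_neg), ?_, ?_⟩
  · have : Integrable (fun u => h (-u)) := H.int.comp_neg
    exact (Complex.conjLIE.toContinuousLinearEquiv : ℂ ≃L[ℝ] ℂ).integrable_comp_iff.2 this
  · obtain ⟨B, hB⟩ := H.bdd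
    exact ⟨B, fun u => by rw [RCLike.norm_conj]; exact hB _⟩

theorem expI_norm (t u : ℝ) : ‖cexp (t * u * I)‖ = 1 := by
  rw [show (t : ℂ) * u * I = ((t * u : ℝ) : ℂ) * I by push_cast; ring,
    Complex.norm_exp_ofReal_mul_I]

theorem hat_integrable {h : ℝ → ℂ} (H : Integrable h) (t : ℝ) :
    Integrable (fun u : ℝ => h u * cexp (t * u * I)) := by
  refine H.mul_bdd (c := 1) ?_ (Eventually.of_forall fun u => ?_)
  · exact (Continuous.aestronglyMeasurable (by fun_prop))
  · rw [expI_norm]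

theorem hat_const_mul (c : ℂ) (h : ℝ → ℂ) (t : ℝ) :
    hat (fun u => c * h u) t = c * hat h t := by
  unfold hat
  rw [← integral_const_mul]
  congr 1; funext u; ring

theorem hat_sub {g h : ℝ → ℂ} (G : Integrable g) (H : Integrable h) (t : ℝ) :
    hat (fun u => g u - h u) t = hat g t - hat h t := by
  unfold hat
  rw [← integral_sub (hat_integrable G t) (hat_integrable H t)]
  congr 1; funext u; ring

theorem hat_sum {ι : Type*} (s : Finset ι) {h : ι → ℝ → ℂ} (H : ∀ i ∈ s, Integrable (h i))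
    (t : ℝ) : hat (fun u => ∑ i ∈ s, h i u) t = ∑ i ∈ s, hat (h i) t := by
  unfold hat
  rw [← integral_finsetSum _ fun i hi => hat_integrable (H i hi) t]
  congr 1; funext u; rw [Finset.sum_mul]

theorem hat_shift (h : ℝ → ℂ) (a t : ℝ) :
    hat (fun u => h (u + a)) t = cexp (-(t * a * I)) * hat h t := by
  unfold hat
  have h' := integral_add_right_eq_self (μ := volume)
    (fun u : ℝ => h u * cexp (t * (u - a) * I)) a
  have h1 : (fun u : ℝ => h (u + a) * cexp (t * u * I)) =
      fun u : ℝ => h (u + a) * cexp (t * (((u + a : ℝ) : ℂ) - a) * I) := by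
    funext u
    congr 2
    push_cast
    ring
  rw [h1, h', ← integral_const_mul]
  congr 1
  funext u
  rw [mul_left_comm, ← Complex.exp_add]
  congr 2
  ring

theorem hat_conj_neg (h : ℝ → ℂ) (t : ℝ) :
    hat (fun u => starRingEnd ℂ (h (-u))) t = starRingEnd ℂ (hat h t) := by
  unfold hat
  rw [← integral_conj]
  rw [← integral_neg_eq_self]
  congr 1
  funext u
  simp only [neg_neg, map_mul]
  congr 1
  rw [← Complex.exp_conj]
  congr 1
  simp


theorem continuous_hat {h : ℝ → ℂ} (h1 : Integrable h) : Continuous (hat h) := by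
  have hc : Continuous (FourierTransform.fourier h) :=
    VectorFourier.fourierIntegral_continuous Real.continuous_fourierChar continuous_inner h1
  rw [hat_eq_comp]
  exact hc.comp (by fun_prop)


/-- the window `∫_0^H e^{isv} ds` -/
def win (H : ℝ) (v : ℝ) : ℂ := ∫ s in (0 : ℝ)..H, cexp (v * s * I)

theorem win_continuous (H : ℝ) : Continuous (win H) := by
  unfold win
  apply intervalIntegral.continuous_parametric_intervalIntegral_of_continuous'
  fun_prop

theorem win_le {H : ℝ} (hH : 0 ≤ H) (v : ℝ) : ‖win H v‖ ≤ H := by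
  unfold win
  have := intervalIntegral.norm_integral_le_of_norm_le_const (a := 0) (b := H) (C := 1)
    (f := fun s : ℝ => cexp (v * s * I)) (fun s _ => (expI_norm v s).le)
  simpa [abs_of_nonneg hH] using this

theorem win_le' (H : ℝ) {v : ℝ} (hv : v ≠ 0) : ‖win H v‖ ≤ 2 / |v| := by
  unfold win
  have hc : (v * I : ℂ) ≠ 0 := mul_ne_zero (by exact_mod_cast hv) I_ne_zero
  have e : (fun s : ℝ => cexp (v * s * I)) = fun s : ℝ => cexp (v * I * s) := by
    funext s; congr 1; ring
  rw [e, integral_exp_mul_complex hc, norm_div]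
  have h1 : ‖(v * I : ℂ)‖ = |v| := by simp
  rw [h1]
  have h2 : ‖cexp (v * I * H) - cexp (v * I * (0 : ℝ))‖ ≤ 2 := by
    refine (norm_sub_le _ _).trans ?_
    have e1 : (v * I * H : ℂ) = v * H * I := by ring
    have e2 : (v * I * (0 : ℝ) : ℂ) = v * (0 : ℝ) * I := by ring
    rw [e1, e2, expI_norm, expI_norm]
    norm_num
  gcongr

theorem win_neg {H : ℝ} (hH : 0 ≤ H) (v : ℝ) : ‖win H (-v)‖ = ‖win H v‖ := by
  have : win H (-v) = starRingEnd ℂ (win H v) := by
    unfold win
    rw [intervalIntegral.integral_of_le hH, intervalIntegral.integral_of_le hH, ← integral_conj]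
    congr 1
    funext s
    rw [← Complex.exp_conj]
    congr 1
    simp
  rw [this, RCLike.norm_conj]

theorem win_sq {H : ℝ} (hH : 0 ≤ H) : Integrable (fun v => ‖win H v‖ ^ 2) ∧
    ∫ v, ‖win H v‖ ^ 2 = 2 * Real.pi * H := by
  set g : ℝ → ℂ := Set.indicator (Set.Ioc 0 H) (fun _ => 1) with hg
  have hgi : Integrable g := by
    rw [hg, integrable_indicator_iff measurableSet_Ioc]
    exact integrableOn_const (by simp)
  have hg2 : (fun u => ‖g u‖ ^ 2) = Set.indicator (Set.Ioc 0 H) (fun _ => (1 : ℝ)) := by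
    funext u
    by_cases hu : u ∈ Set.Ioc 0 H
    · simp [hg, Set.indicator_of_mem hu]
    · simp [hg, Set.indicator_of_notMem hu]
  have hg2i : Integrable (fun u => ‖g u‖ ^ 2) := by
    rw [hg2, integrable_indicator_iff measurableSet_Ioc]
    exact integrableOn_const (by simp)
  have hhat : ∀ v, hat g v = win H v := by
    intro v
    unfold hat win
    rw [intervalIntegral.integral_of_le hH, ← integral_indicator measurableSet_Ioc]
    congr 1
    funext u
    by_cases hu : u ∈ Set.Ioc 0 H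
    · simp [hg, Set.indicator_of_mem hu]
    · simp [hg, Set.indicator_of_notMem hu]
  have := PL1 g hgi hg2i
  simp only [hhat] at this
  refine ⟨this.1, this.2.trans ?_⟩
  congr 1
  rw [hg2, integral_indicator measurableSet_Ioc]
  simp [hH]

theorem hat_mul_win {f : ℝ → ℂ} (hf : Integrable f) {H : ℝ} (hH : 0 ≤ H) (t : ℝ) :
    hat (fun u => f u * win H u) t = ∫ s in t..(t + H), hat f s := by
  have e0 : ∫ s in t..(t + H), hat f s = ∫ s in (0 : ℝ)..H, hat f (t + s) := by
    rw [intervalIntegral.integral_comp_add_left (fun s => hat f s) t]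
    simp
  rw [e0]
  unfold hat win
  simp only [intervalIntegral.integral_of_le hH]
  have hint : Integrable (Function.uncurry fun (u s : ℝ) =>
      f u * cexp (((t + s : ℝ) : ℂ) * u * I))
      (volume.prod (volume.restrict (Set.Ioc 0 H))) := by
    have h1 : Integrable (fun p : ℝ × ℝ => f p.1 * (1 : ℂ))
        (volume.prod (volume.restrict (Set.Ioc 0 H))) :=
      hf.mul_prod (integrable_const (1 : ℂ))
    have h2 := h1.mul_bdd (c := 1) (g := fun p : ℝ × ℝ => cexp (((t + p.2 : ℝ) : ℂ) * p.1 * I))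
      (Continuous.aestronglyMeasurable (by fun_prop))
      (Eventually.of_forall fun p => (expI_norm _ _).le)
    refine h2.congr (Eventually.of_forall fun p => ?_)
    simp [Function.uncurry]
  rw [← integral_integral_swap hint]
  congr 1
  funext u
  rw [← integral_const_mul, ← integral_mul_const]
  congr 1
  funext s
  rw [mul_assoc, ← Complex.exp_add]
  congr 2
  push_cast
  ring

theorem Nice.mul_win {f : ℝ → ℂ} (F : Nice f) {H : ℝ} (hH : 0 ≤ H) :
    Nice (fun u => f u * win H u) := by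
  refine ⟨F.meas.mul (win_continuous H).measurable, ?_, ?_⟩
  · exact F.int.mul_bdd (c := H) (win_continuous H).aestronglyMeasurable
      (Eventually.of_forall fun u => win_le hH u)
  · obtain ⟨B, hB⟩ := F.bdd
    refine ⟨B * H, fun u => ?_⟩
    rw [norm_mul]
    exact mul_le_mul (hB u) (win_le hH u) (norm_nonneg _) ((norm_nonneg _).trans (hB u))

theorem even_integral {g : ℝ → ℝ} (hg : Integrable g) (hs : ∀ᵐ v, g (-v) = g v) :
    ∫ v, g v = 2 * ∫ v in Set.Ioi 0, g v := by
  have h1 : ∫ v, g v = (∫ v in Set.Iic 0, g v) + ∫ v in Set.Ioi 0, g v :=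
    (intervalIntegral.integral_Iic_add_Ioi hg.integrableOn hg.integrableOn).symm
  have h2 : ∫ v in Set.Iic 0, g v = ∫ v in Set.Ioi 0, g v := by
    have h3 := integral_comp_neg_Ioi (0 : ℝ) g
    rw [neg_zero] at h3
    rw [← h3]
    exact setIntegral_congr_ae measurableSet_Ioi (hs.mono fun v hv _ => hv)
  rw [h1, h2]; ring

/-- pointwise splitting -/
theorem split_bound {A G Lc H v : ℝ} (hA : 0 ≤ A) (hG : 0 ≤ G) (hL : 0 < Lc) (_hH : 0 ≤ H)
    (h : |v| ≤ Lc → G ≤ A) :
    G * ‖win H v‖ ^ 2 ≤ A * ‖win H v‖ ^ 2 + 4 / Lc ^ 2 * G := by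
  rcases le_or_gt |v| Lc with hv | hv
  · have h1 : G * ‖win H v‖ ^ 2 ≤ A * ‖win H v‖ ^ 2 := by
      gcongr; exact h hv
    have h2 : 0 ≤ 4 / Lc ^ 2 * G := by positivity
    linarith
  · have hv0 : v ≠ 0 := by
      rintro rfl; rw [abs_zero] at hv; linarith
    have h1 := win_le' H hv0
    have h2 : ‖win H v‖ ^ 2 ≤ 4 / Lc ^ 2 := by
      have h3 : ‖win H v‖ ≤ 2 / Lc := h1.trans (by gcongr)
      calc ‖win H v‖ ^ 2 ≤ (2 / Lc) ^ 2 := by gcongr
        _ = 4 / Lc ^ 2 := by rw [div_pow]; norm_num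
    have h4 : G * ‖win H v‖ ^ 2 ≤ 4 / Lc ^ 2 * G := by
      rw [mul_comm]; gcongr
    have h5 : 0 ≤ A * ‖win H v‖ ^ 2 := by positivity
    linarith


end Pool.Agent.ABS
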