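import Pool.Agent.Lib_helper24.ABS.Phase

/-!
# Abstract Selberg endgame: `L`-data, mollified densities
-/

noncomputable section

namespace Pool.Agent.ABS

open Complex MeasureTheory Filter Topology
open Pool.Agent.SQS (hat PL1 PL2 hat_eq_comp)

/-- An entire completed `L`-function `Λ` with Fourier density `dens` on the critical line:
`Λ(1/2+it) = ∫ dens(u) e^{itu} du`, and functional equation with log-conductor `A`. -/
structure LData where
  /-- the completed `L`-function -/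
  Λ : ℂ → ℂ
  /-- the logarithm of the conductor -/
  A : ℝ
  /-- the Fourier density -/
  dens : ℝ → ℂ
  diff : Differentiable ℂ Λ
  nice : Nice dens
  rep : ∀ t : ℝ, hat dens t = Λ (1 / 2 + t * I)
  fe : ∃ W : ℂ, ‖W‖ = 1 ∧ ∀ t : ℝ,
    ph A t * Λ (1 / 2 + t * I) = W * starRingEnd ℂ (ph A t * Λ (1 / 2 + t * I))

/-- the functional equation on the line from the functional equation of the density -/
theorem fe_of_dens {Λ : ℂ → ℂ} {A : ℝ} {dens : ℝ → ℂ}
    (rep : ∀ t : ℝ, hat dens t = Λ (1 / 2 + t * I)) {W : ℂ} (hW : ‖W‖ = 1)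
    (h : ∀ u : ℝ, dens u = W * starRingEnd ℂ (dens (-A - u))) (t : ℝ) :
    ph A t * Λ (1 / 2 + t * I) = W * starRingEnd ℂ (ph A t * Λ (1 / 2 + t * I)) := by
  have h1 : hat dens t = W * hat (fun u => starRingEnd ℂ (dens (-A - u))) t := by
    rw [← hat_const_mul]
    congr 1
    funext u
    exact h u
  have h2 : hat (fun u => starRingEnd ℂ (dens (-A - u))) t =
      cexp (-(t * A * I)) * starRingEnd ℂ (hat dens t) := by
    have e := hat_shift (fun u => starRingEnd ℂ (dens (-u))) A t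
    rw [hat_conj_neg] at e
    rw [← e]
    congr 1
    funext u
    congr 2
    ring
  rw [map_mul, ← rep t]
  have h3 : starRingEnd ℂ (ph A t) = cexp (-(t * (A / 2 : ℝ) * I)) := by
    unfold ph
    rw [← Complex.exp_conj, map_mul, map_mul, Complex.conj_ofReal, Complex.conj_ofReal,
      Complex.conj_I]
    congr 1
    ring
  have h4 : ph A t * cexp (-(t * A * I)) = cexp (-(t * (A / 2 : ℝ) * I)) := by
    unfold ph
    rw [← Complex.exp_add]
    congr 1
    push_cast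
    ring
  conv_lhs => rw [h1, h2]
  rw [h3, ← h4]
  ring

namespace LData

/-- `Λ(1/2+it)` is continuous -/
theorem cont (X : LData) : Continuous (fun t : ℝ => X.Λ (1 / 2 + t * I)) :=
  X.diff.continuous.comp (by fun_prop)

variable {J : Type*} (s : Finset J) (b : J → ℂ) (ℓ : J → ℝ)

/-- Dirichlet polynomial `∑ b_j e^{-i t ℓ_j}` -/
def poly (t : ℝ) : ℂ := ∑ j ∈ s, b j * cexp (-(t * ℓ j * I))

theorem poly_continuous : Continuous (poly s b ℓ) := by
  unfold poly
  fun_prop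

/-- density of `e^{itA/2} Λ(1/2+it) |M(t)|²` -/
def fd (X : LData) (v : ℝ) : ℂ :=
  ∑ j ∈ s, ∑ k ∈ s, b j * starRingEnd ℂ (b k) * X.dens (v + (ℓ j - ℓ k - X.A / 2))

/-- density of `Λ(1/2+it) M(t)²` -/
def Dd (X : LData) (u : ℝ) : ℂ :=
  ∑ j ∈ s, ∑ k ∈ s, b j * b k * X.dens (u + (ℓ j + ℓ k))

theorem fd_nice (X : LData) : Nice (X.fd s b ℓ) :=
  Nice.sum _ fun _ _ => Nice.sum _ fun _ _ => (X.nice.shift _).const_mul _

theorem Dd_nice (X : LData) : Nice (X.Dd s b ℓ) :=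
  Nice.sum _ fun _ _ => Nice.sum _ fun _ _ => (X.nice.shift _).const_mul _

theorem hat_fd (X : LData) (t : ℝ) :
    hat (X.fd s b ℓ) t = ph X.A t * X.Λ (1 / 2 + t * I) *
      (poly s b ℓ t * starRingEnd ℂ (poly s b ℓ t)) := by
  unfold fd
  rw [hat_sum _ fun k _ => (Nice.sum _ fun l _ => (X.nice.shift _).const_mul _).int]
  rw [poly, map_sum, Finset.sum_mul_sum, Finset.mul_sum]
  refine Finset.sum_congr rfl fun j _ => ?_
  rw [hat_sum _ fun l _ => ((X.nice.shift _).const_mul _).int, Finset.mul_sum]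
  refine Finset.sum_congr rfl fun k _ => ?_
  rw [hat_const_mul, hat_shift, X.rep, map_mul, ← Complex.exp_conj]
  have e1 : starRingEnd ℂ (-(t * ℓ k * I) : ℂ) = t * ℓ k * I := by
    rw [map_neg, map_mul, map_mul, Complex.conj_ofReal, Complex.conj_ofReal, Complex.conj_I]
    ring
  rw [e1]
  have e2 : cexp (-(t * ((ℓ j - ℓ k - X.A / 2 : ℝ) : ℂ) * I)) =
      ph X.A t * (cexp (-(t * ℓ j * I)) * cexp (t * ℓ k * I)) := by
    unfold ph
    rw [← Complex.exp_add, ← Complex.exp_add]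
    congr 1
    push_cast
    ring
  rw [e2]
  ring

theorem hat_Dd (X : LData) (t : ℝ) :
    hat (X.Dd s b ℓ) t = X.Λ (1 / 2 + t * I) * (poly s b ℓ t * poly s b ℓ t) := by
  unfold Dd
  rw [hat_sum _ fun k _ => (Nice.sum _ fun l _ => (X.nice.shift _).const_mul _).int]
  rw [poly, Finset.sum_mul_sum, Finset.mul_sum]
  refine Finset.sum_congr rfl fun j _ => ?_
  rw [hat_sum _ fun l _ => ((X.nice.shift _).const_mul _).int, Finset.mul_sum]
  refine Finset.sum_congr rfl fun k _ => ?_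
  rw [hat_const_mul, hat_shift, X.rep]
  have e2 : cexp (-(t * ((ℓ j + ℓ k : ℝ) : ℂ) * I)) =
      cexp (-(t * ℓ j * I)) * cexp (-(t * ℓ k * I)) := by
    rw [← Complex.exp_add]
    congr 1
    push_cast
    ring
  rw [e2]
  ring

end LData

/-- An `L`-function together with a mollifier `M`, the densities `f` of `e^{itA/2} Λ |M|²`, `D` of
`Λ M²`, and a reference density `g`. -/
structure Piece extends LData where
  /-- the mollifier on the critical line -/
  M : ℝ → ℂ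
  /-- density of `e^{itA/2} Λ |M|²` -/
  f : ℝ → ℂ
  /-- density of `Λ M²` -/
  D : ℝ → ℂ
  /-- reference density -/
  g : ℝ → ℂ
  Mc : Continuous M
  nf : Nice f
  nD : Nice D
  ng : Nice g
  hf : ∀ t : ℝ, hat f t = ph A t * Λ (1 / 2 + t * I) * (M t * starRingEnd ℂ (M t))
  hD : ∀ t : ℝ, hat D t = Λ (1 / 2 + t * I) * (M t * M t)

/-- the piece of a Dirichlet polynomial -/
def LData.piece (X : LData) {J : Type*} (s : Finset J) (b : J → ℂ) (ℓ : J → ℝ) (g : ℝ → ℂ)
    (hg : Nice g) : Piece where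
  toLData := X
  M := LData.poly s b ℓ
  f := X.fd s b ℓ
  D := X.Dd s b ℓ
  g := g
  Mc := LData.poly_continuous s b ℓ
  nf := X.fd_nice s b ℓ
  nD := X.Dd_nice s b ℓ
  ng := hg
  hf := X.hat_fd s b ℓ
  hD := X.hat_Dd s b ℓ

namespace Piece

theorem norm_hat (P : Piece) (t : ℝ) : ‖hat P.f t‖ = ‖hat P.D t‖ := by
  rw [P.hf, P.hD]
  simp only [norm_mul, RCLike.norm_conj, ph_norm, one_mul]

/-- energy identity -/
theorem energy (P : Piece) : ∫ u, ‖P.D u‖ ^ 2 = ∫ v, ‖P.f v‖ ^ 2 := by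
  have h1 := (PL1 _ P.nD.int P.nD.sq).2
  have h2 := (PL1 _ P.nf.int P.nf.sq).2
  have h3 : ∫ t, ‖hat P.f t‖ ^ 2 = ∫ t, ‖hat P.D t‖ ^ 2 := by
    congr 1; funext t; rw [P.norm_hat]
  rw [h1, h2] at h3
  have := Real.pi_pos
  exact (mul_left_cancel₀ (by positivity) h3).symm

/-- the functional equation in `f` -/
theorem symm' (P : Piece) :
    ∃ W : ℂ, ‖W‖ = 1 ∧ ∀ᵐ v : ℝ, P.f v = W * starRingEnd ℂ (P.f (-v)) := by
  obtain ⟨W, hW, hfe⟩ := P.fe
  refine ⟨W, hW, ?_⟩
  have hn := P.nf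
  have hn2 := hn.conj_neg.const_mul W
  have hh := hn.sub hn2
  have hz : ∀ t, hat (fun v => P.f v - W * starRingEnd ℂ (P.f (-v))) t = 0 := by
    intro t
    rw [hat_sub hn.int hn2.int, hat_const_mul, hat_conj_neg, P.hf,
      map_mul (starRingEnd ℂ) (ph P.A t * P.Λ (1 / 2 + t * I)), ← mul_assoc W, ← hfe t,
      map_mul, Complex.conj_conj]
    ring
  have h1 := (PL1 _ hh.int hh.sq).2
  simp only [hz, norm_zero, ne_eq, OfNat.ofNat_ne_zero, not_false_eq_true, zero_pow,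
    integral_zero] at h1
  have h2 : ∫ v, ‖P.f v - W * starRingEnd ℂ (P.f (-v))‖ ^ 2 = 0 := by
    have := Real.pi_pos
    rcases mul_eq_zero.1 h1.symm with h | h
    · exact absurd h (by positivity)
    · exact h
  rw [integral_eq_zero_iff_of_nonneg (fun v => by positivity) hh.sq] at h2
  filter_upwards [h2] with v hv
  have : ‖P.f v - W * starRingEnd ℂ (P.f (-v))‖ = 0 := by
    simpa using hv
  exact sub_eq_zero.1 (norm_eq_zero.1 this)

theorem symm (P : Piece) : ∀ᵐ v : ℝ, ‖P.f (-v)‖ = ‖P.f v‖ := by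
  obtain ⟨W, hW, h⟩ := P.symm'
  filter_upwards [h] with v hv
  rw [hv, norm_mul, hW, one_mul, RCLike.norm_conj]

theorem energy_half (P : Piece) :
    ∫ u, ‖P.D u‖ ^ 2 = 2 * ∫ v in Set.Ioi 0, ‖P.f v‖ ^ 2 := by
  rw [P.energy]
  refine even_integral P.nf.sq ?_
  filter_upwards [P.symm] with v hv
  rw [hv]

/-- (U) for one piece -/
theorem U_one (P : Piece) {H : ℝ} (hH : 0 ≤ H) :
    Integrable (fun t => ‖hat (fun u => P.f u * win H u) t‖ ^ 2) ∧
    ∫ t, ‖hat (fun u => P.f u * win H u) t‖ ^ 2 =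
      4 * Real.pi * ∫ v in Set.Ioi 0, ‖P.f v‖ ^ 2 * ‖win H v‖ ^ 2 := by
  have hn := P.nf.mul_win hH
  obtain ⟨h1, h2⟩ := PL1 _ hn.int hn.sq
  refine ⟨h1, ?_⟩
  have h3 : ∫ u, ‖P.f u * win H u‖ ^ 2 =
      2 * ∫ v in Set.Ioi 0, ‖P.f v * win H v‖ ^ 2 := by
    refine even_integral hn.sq ?_
    filter_upwards [P.symm] with v hv
    rw [norm_mul, norm_mul, hv, win_neg hH]
  rw [h2, h3]
  simp only [norm_mul, mul_pow]
  ring

/-- (V) for one piece -/
theorem V_one (P : Piece) {H : ℝ} (hH : 0 ≤ H) :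
    Integrable (fun t => ‖hat (fun u => (P.D u - P.g u) * win H u) t‖ ^ 2) ∧
    ∫ t, ‖hat (fun u => (P.D u - P.g u) * win H u) t‖ ^ 2 =
      2 * Real.pi * ∫ v, ‖P.D v - P.g v‖ ^ 2 * ‖win H v‖ ^ 2 := by
  have hn := (P.nD.sub P.ng).mul_win hH
  obtain ⟨h1, h2⟩ := PL1 _ hn.int hn.sq
  refine ⟨h1, ?_⟩
  rw [h2]
  simp only [norm_mul, mul_pow]

/-- WINDOW -/
theorem window (P : Piece) {t H : ℝ} (hH : 0 ≤ H)
    (h : ∀ s ∈ Set.Ioo t (t + H), s ∉ oddZ P.Λ) :
    ‖∫ s in t..(t + H), hat P.g s‖ ≤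
      ‖hat (fun u => P.f u * win H u) t‖ +
      ‖hat (fun u => (P.D u - P.g u) * win H u) t‖ := by
  obtain ⟨W, hW, hfe⟩ := P.fe
  obtain ⟨θ, hθ, hph⟩ := phase_odd P.diff hW hfe t (t + H) h
  have hle : t ≤ t + H := by linarith
  rw [hat_mul_win P.nf.int hH, hat_mul_win (P.nD.sub P.ng).int hH]
  set Λ : ℝ → ℂ := fun s => P.Λ (1 / 2 + s * I) with hΛ
  have hΛc : Continuous Λ := P.toLData.cont
  have hmc := P.Mc
  set Y : ℝ → ℝ := fun s => ‖Λ s * (P.M s * P.M s)‖ with hY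
  have hYc : Continuous Y := (hΛc.mul (hmc.mul hmc)).norm
  have e1 : ∫ s in t..(t + H), hat P.f s = θ * ((∫ s in t..(t + H), Y s : ℝ) : ℂ) := by
    rw [← intervalIntegral.integral_ofReal, ← intervalIntegral.integral_const_mul]
    rw [intervalIntegral.integral_of_le hle, intervalIntegral.integral_of_le hle,
      integral_Ioc_eq_integral_Ioo, integral_Ioc_eq_integral_Ioo]
    refine setIntegral_congr_fun measurableSet_Ioo fun s hs => ?_
    show hat P.f s = θ * ((Y s : ℝ) : ℂ)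
    rw [P.hf, hph s hs, Complex.mul_conj, Complex.normSq_eq_norm_sq, hY]
    simp only [norm_mul]
    push_cast
    ring
  have e2 : ‖∫ s in t..(t + H), hat P.f s‖ = ∫ s in t..(t + H), Y s := by
    rw [e1, norm_mul, hθ, one_mul, Complex.norm_real, Real.norm_of_nonneg]
    exact intervalIntegral.integral_nonneg hle fun s _ => norm_nonneg _
  have e3 : ‖∫ s in t..(t + H), Λ s * (P.M s * P.M s)‖ ≤
      ∫ s in t..(t + H), Y s :=
    intervalIntegral.norm_integral_le_integral_norm hle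
  have hγc : Continuous (hat P.g) := continuous_hat P.ng.int
  have e4 : ∫ s in t..(t + H), hat (fun u => P.D u - P.g u) s =
      (∫ s in t..(t + H), Λ s * (P.M s * P.M s)) - ∫ s in t..(t + H), hat P.g s := by
    have hi1 : IntervalIntegrable (fun s => Λ s * (P.M s * P.M s)) volume t (t + H) :=
      (hΛc.mul (hmc.mul hmc)).intervalIntegrable _ _
    rw [← intervalIntegral.integral_sub hi1 (hγc.intervalIntegrable _ _)]
    congr 1
    funext s
    rw [hat_sub P.nD.int P.ng.int, P.hD]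
  rw [e2, e4]
  have e5 := norm_sub_norm_le (∫ s in t..(t + H), hat P.g s)
    (∫ s in t..(t + H), Λ s * (P.M s * P.M s))
  rw [norm_sub_rev] at e5
  linarith

end Piece

end Pool.Agent.ABS
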