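import Pool.Agent.Lib_helper24.ABS.Data

/-!
# Abstract Selberg endgame: from mean values to zeros for a finite family
-/

noncomputable section

namespace Pool.Agent.ABS

open Complex MeasureTheory Filter Topology
open Pool.Agent.SQS (hat PL1 PL2 hat_eq_comp)
open scoped ENNReal

/-- one bad piece -/
theorem Piece.bad_one (P : Piece)
    {T h c H x : ℝ} (hc : 0 ≤ c) (hH : 0 < H)
    (hlow : ∀ t : ℝ, -T ≤ t → t ≤ T → c * H ≤ ‖∫ s in t..(t + H), hat P.g s‖)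
    (hx : -T ≤ x) (hx' : x + h ≤ T) (hHh : H ≤ h / 8) (Z : Finset ℝ)
    (hZ : ∀ t ∈ oddZ P.Λ ∩ Set.Ioo x (x + h), t ∈ Z) (hZc : Z.card * H ≤ 3 / 8 * h) :
    (c * H) ^ 2 * (h / 2) ≤
      2 * (∫ t, ‖hat (fun u => P.f u * win H u) t‖ ^ 2) +
      2 * ∫ t, ‖hat (fun u => (P.D u - P.g u) * win H u) t‖ ^ 2 := by
  obtain ⟨hU, -⟩ := P.U_one hH.le
  obtain ⟨hV, -⟩ := P.V_one hH.le
  set A : ℝ → ℝ := fun t => ‖hat (fun u => P.f u * win H u) t‖ with hA
  set B : ℝ → ℝ := fun t => ‖hat (fun u => (P.D u - P.g u) * win H u) t‖ with hB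
  set U : Set ℝ := ⋃ z ∈ Z, Set.Ioo (z - H) z with hUd
  set S : Set ℝ := Set.Icc x (x + h - H) \ U with hS
  have hUm : MeasurableSet U := Z.measurableSet_biUnion fun z _ => measurableSet_Ioo
  have hSm : MeasurableSet S := measurableSet_Icc.diff hUm
  have hSfin : volume S ≠ ∞ :=
    ((measure_mono Set.diff_subset).trans_lt
      (by rw [Real.volume_Icc]; exact ENNReal.ofReal_lt_top)).ne
  have hUfin : volume U ≠ ∞ := by
    refine ((measure_biUnion_finset_le Z _).trans_lt ?_).ne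
    refine ENNReal.sum_lt_top.2 fun z _ => ?_
    rw [Real.volume_Ioo]; exact ENNReal.ofReal_lt_top
  have hUle : volume.real U ≤ Z.card * H := by
    refine (measureReal_biUnion_finset_le Z _).trans ?_
    refine le_of_eq ?_
    have : ∀ z ∈ Z, volume.real (Set.Ioo (z - H) z) = H := by
      intro z _
      rw [Real.volume_real_Ioo_of_le (by linarith)]; ring
    rw [Finset.sum_congr rfl this, Finset.sum_const, nsmul_eq_mul]
  have hSge : h / 2 ≤ volume.real S := by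
    have h1 : volume.real (Set.Icc x (x + h - H)) ≤ volume.real (S ∪ U) := by
      refine measureReal_mono ?_ (measure_union_lt_top hSfin.lt_top hUfin.lt_top).ne
      intro t ht
      by_cases htU : t ∈ U
      · exact Or.inr htU
      · exact Or.inl ⟨ht, htU⟩
    have h2 := measureReal_union_le (μ := volume) S U
    rw [Real.volume_real_Icc_of_le (by linarith)] at h1
    linarith
  have hpt : ∀ t ∈ S, (c * H) ^ 2 ≤ 2 * A t ^ 2 + 2 * B t ^ 2 := by
    intro t ht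
    have hno : ∀ s ∈ Set.Ioo t (t + H), s ∉ oddZ P.Λ := by
      intro s hs hs'
      have hsZ : s ∈ Z := hZ s ⟨hs', ⟨by linarith [ht.1.1, hs.1], by linarith [ht.1.2, hs.2]⟩⟩
      apply ht.2
      rw [hUd]
      simp only [Set.mem_iUnion]
      exact ⟨s, hsZ, ⟨by linarith [hs.2], hs.1⟩⟩
    have h1 := P.window hH.le hno
    have h2 := hlow t (by linarith [ht.1.1]) (by linarith [ht.1.2])
    have h3 : c * H ≤ A t + B t := h2.trans h1
    have h4 : (c * H) ^ 2 ≤ (A t + B t) ^ 2 := by gcongr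
    nlinarith [sq_nonneg (A t - B t)]
  have hint : Integrable (fun t => 2 * A t ^ 2 + 2 * B t ^ 2) :=
    (hU.const_mul 2).add (hV.const_mul 2)
  have h5 : ∫ t in S, (c * H) ^ 2 ≤ ∫ t in S, (2 * A t ^ 2 + 2 * B t ^ 2) := by
    refine setIntegral_mono_on (integrableOn_const hSfin) hint.integrableOn hSm hpt
  have h6 : ∫ t in S, (2 * A t ^ 2 + 2 * B t ^ 2) ≤ ∫ t, (2 * A t ^ 2 + 2 * B t ^ 2) :=
    setIntegral_le_integral hint (Eventually.of_forall fun t => by positivity)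
  rw [setIntegral_const, smul_eq_mul] at h5
  rw [integral_add (hU.const_mul 2) (hV.const_mul 2), integral_const_mul,
    integral_const_mul] at h6
  calc (c * H) ^ 2 * (h / 2) ≤ volume.real S * (c * H) ^ 2 := by
        rw [mul_comm]; gcongr
    _ ≤ _ := h5.trans h6

variable {ι : Type*}

/-- (U) summed over the family -/
theorem U_sum (S : Finset ι) (P : ι → Piece)
    {H Lc A1 A2 : ℝ} (hH : 0 ≤ H) (hL : 0 < Lc) (hA1 : 0 ≤ A1)
    (M1 : ∀ v, 0 ≤ v → v ≤ Lc → ∑ i ∈ S, ‖(P i).f v‖ ^ 2 ≤ A1)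
    (M2 : ∑ i ∈ S, ∫ v in Set.Ioi 0, ‖(P i).f v‖ ^ 2 ≤ A2) :
    ∑ i ∈ S, ∫ t, ‖hat (fun u => (P i).f u * win H u) t‖ ^ 2 ≤
      4 * Real.pi * (A1 * (2 * Real.pi * H) + 4 / Lc ^ 2 * A2) := by
  have hpi := Real.pi_pos
  have hfi : ∀ i ∈ S, Integrable (fun v => ‖(P i).f v‖ ^ 2) := fun i _ => (P i).nf.sq
  have hfwi : ∀ i ∈ S, Integrable (fun v => ‖(P i).f v‖ ^ 2 * ‖win H v‖ ^ 2) := by
    intro i _
    have := ((P i).nf.mul_win hH).sq
    simpa only [norm_mul, mul_pow] using this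
  have e1 : ∑ i ∈ S, ∫ t, ‖hat (fun u => (P i).f u * win H u) t‖ ^ 2 =
      4 * Real.pi * ∫ v in Set.Ioi 0, ∑ i ∈ S, ‖(P i).f v‖ ^ 2 * ‖win H v‖ ^ 2 := by
    rw [integral_finsetSum _ fun i hi => (hfwi i hi).integrableOn, Finset.mul_sum]
    exact Finset.sum_congr rfl fun i _ => ((P i).U_one hH).2
  rw [e1]
  refine mul_le_mul_of_nonneg_left ?_ (by positivity)
  obtain ⟨hwi, hw⟩ := win_sq hH
  have hsum : Integrable (fun v => ∑ i ∈ S, ‖(P i).f v‖ ^ 2) := integrable_finsetSum _ hfi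
  have hsumw : Integrable (fun v => ∑ i ∈ S, ‖(P i).f v‖ ^ 2 * ‖win H v‖ ^ 2) :=
    integrable_finsetSum _ hfwi
  calc ∫ v in Set.Ioi 0, ∑ i ∈ S, ‖(P i).f v‖ ^ 2 * ‖win H v‖ ^ 2
      ≤ ∫ v in Set.Ioi 0, (A1 * ‖win H v‖ ^ 2 + 4 / Lc ^ 2 * ∑ i ∈ S, ‖(P i).f v‖ ^ 2) := by
        refine setIntegral_mono_on hsumw.integrableOn
          ((hwi.const_mul _).add (hsum.const_mul _)).integrableOn measurableSet_Ioi ?_
        intro v hv
        rw [← Finset.sum_mul]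
        refine split_bound hA1 (by positivity) hL hH fun hv' => M1 v (le_of_lt hv) ?_
        exact (le_abs_self v).trans hv'
    _ = A1 * (∫ v in Set.Ioi 0, ‖win H v‖ ^ 2) +
        4 / Lc ^ 2 * ∑ i ∈ S, ∫ v in Set.Ioi 0, ‖(P i).f v‖ ^ 2 := by
        rw [integral_add (hwi.const_mul _).integrableOn (hsum.const_mul _).integrableOn,
          integral_const_mul, integral_const_mul,
          integral_finsetSum _ fun i hi => (hfi i hi).integrableOn]
    _ ≤ _ := by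
        have h1 : (∫ v in Set.Ioi 0, ‖win H v‖ ^ 2) ≤ 2 * Real.pi * H := by
          rw [← hw]
          exact setIntegral_le_integral hwi (Eventually.of_forall fun v => by positivity)
        gcongr

/-- (V) summed over the family -/
theorem V_sum (S : Finset ι) (P : ι → Piece)
    {H Lc A1 A2 E : ℝ} (hH : 0 ≤ H) (hL : 0 < Lc) (hA1 : 0 ≤ A1)
    (hE : ∀ i ∈ S, ∫ u, ‖(P i).g u‖ ^ 2 ≤ E)
    (M3 : ∀ u, |u| ≤ Lc → ∑ i ∈ S, ‖(P i).D u - (P i).g u‖ ^ 2 ≤ A1)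
    (M2 : ∑ i ∈ S, ∫ v in Set.Ioi 0, ‖(P i).f v‖ ^ 2 ≤ A2) :
    ∑ i ∈ S, ∫ t, ‖hat (fun u => ((P i).D u - (P i).g u) * win H u) t‖ ^ 2 ≤
      2 * Real.pi * (A1 * (2 * Real.pi * H) +
        4 / Lc ^ 2 * (4 * A2 + S.card * (2 * E))) := by
  have hpi := Real.pi_pos
  have hDi : ∀ i ∈ S, Integrable (fun v => ‖(P i).D v‖ ^ 2) := fun i _ => (P i).nD.sq
  have hfi : ∀ i ∈ S, Integrable (fun v => ‖(P i).D v - (P i).g v‖ ^ 2) := fun i _ =>
    ((P i).nD.sub (P i).ng).sq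
  have hfwi : ∀ i ∈ S, Integrable
      (fun v => ‖(P i).D v - (P i).g v‖ ^ 2 * ‖win H v‖ ^ 2) := by
    intro i _
    have := (((P i).nD.sub (P i).ng).mul_win hH).sq
    simpa only [norm_mul, mul_pow] using this
  have e1 : ∑ i ∈ S, ∫ t, ‖hat (fun u => ((P i).D u - (P i).g u) * win H u) t‖ ^ 2 =
      2 * Real.pi * ∫ v, ∑ i ∈ S, ‖(P i).D v - (P i).g v‖ ^ 2 * ‖win H v‖ ^ 2 := by
    rw [integral_finsetSum _ fun i hi => (hfwi i hi), Finset.mul_sum]
    exact Finset.sum_congr rfl fun i _ => ((P i).V_one hH).2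
  rw [e1]
  refine mul_le_mul_of_nonneg_left ?_ (by positivity)
  obtain ⟨hwi, hw⟩ := win_sq hH
  have hsum : Integrable (fun v => ∑ i ∈ S, ‖(P i).D v - (P i).g v‖ ^ 2) :=
    integrable_finsetSum _ hfi
  have hsumw : Integrable
      (fun v => ∑ i ∈ S, ‖(P i).D v - (P i).g v‖ ^ 2 * ‖win H v‖ ^ 2) :=
    integrable_finsetSum _ hfwi
  have hen : ∀ i ∈ S, ∫ v, ‖(P i).D v - (P i).g v‖ ^ 2 ≤
      4 * (∫ v in Set.Ioi 0, ‖(P i).f v‖ ^ 2) + 2 * E := by
    intro i hi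
    have h2 := (P i).energy_half
    calc ∫ v, ‖(P i).D v - (P i).g v‖ ^ 2
        ≤ ∫ v, (2 * ‖(P i).D v‖ ^ 2 + 2 * ‖(P i).g v‖ ^ 2) := by
          refine integral_mono (hfi i hi)
            (((hDi i hi).const_mul 2).add ((P i).ng.sq.const_mul 2)) ?_
          intro v
          show ‖(P i).D v - (P i).g v‖ ^ 2 ≤ 2 * ‖(P i).D v‖ ^ 2 + 2 * ‖(P i).g v‖ ^ 2
          have h3 := norm_sub_le ((P i).D v) ((P i).g v)
          have h4 : ‖(P i).D v - (P i).g v‖ ^ 2 ≤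
              (‖(P i).D v‖ + ‖(P i).g v‖) ^ 2 := by gcongr
          nlinarith [sq_nonneg (‖(P i).D v‖ - ‖(P i).g v‖)]
      _ = 4 * (∫ v in Set.Ioi 0, ‖(P i).f v‖ ^ 2) + 2 * ∫ u, ‖(P i).g u‖ ^ 2 := by
          rw [integral_add ((hDi i hi).const_mul 2) ((P i).ng.sq.const_mul 2),
            integral_const_mul, integral_const_mul, h2]
          ring
      _ ≤ _ := by
          have := hE i hi
          linarith
  calc ∫ v, ∑ i ∈ S, ‖(P i).D v - (P i).g v‖ ^ 2 * ‖win H v‖ ^ 2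
      ≤ ∫ v, (A1 * ‖win H v‖ ^ 2 +
          4 / Lc ^ 2 * ∑ i ∈ S, ‖(P i).D v - (P i).g v‖ ^ 2) := by
        refine integral_mono hsumw ((hwi.const_mul _).add (hsum.const_mul _)) ?_
        intro v
        show ∑ i ∈ S, ‖(P i).D v - (P i).g v‖ ^ 2 * ‖win H v‖ ^ 2 ≤ A1 * ‖win H v‖ ^ 2 +
          4 / Lc ^ 2 * ∑ i ∈ S, ‖(P i).D v - (P i).g v‖ ^ 2
        rw [← Finset.sum_mul]
        exact split_bound hA1 (by positivity) hL hH fun hv' => M3 v hv'
    _ = A1 * (∫ v, ‖win H v‖ ^ 2) +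
        4 / Lc ^ 2 * ∑ i ∈ S, ∫ v, ‖(P i).D v - (P i).g v‖ ^ 2 := by
        rw [integral_add (hwi.const_mul _) (hsum.const_mul _),
          integral_const_mul, integral_const_mul, integral_finsetSum _ hfi]
    _ ≤ _ := by
        rw [hw]
        have h5 : ∑ i ∈ S, ∫ v, ‖(P i).D v - (P i).g v‖ ^ 2 ≤
            4 * A2 + S.card * (2 * E) := by
          refine (Finset.sum_le_sum hen).trans ?_
          rw [Finset.sum_add_distrib, ← Finset.mul_sum, Finset.sum_const, nsmul_eq_mul]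
          gcongr
        gcongr

/-- the family `(P i)`, `i ∈ S`, has few odd zeros somewhere: Markov -/
theorem bad_card (S : Finset ι) (P : ι → Piece)
    {T h c H Lc A1 A2 E : ℝ} {m : ℕ} (hc : 0 ≤ c) (hH : 0 < H) (hL : 0 < Lc)
    (hA1 : 0 ≤ A1)
    (hlow : ∀ i ∈ S, ∀ t : ℝ, -T ≤ t → t ≤ T → c * H ≤ ‖∫ s in t..(t + H), hat (P i).g s‖)
    (hE : ∀ i ∈ S, ∫ u, ‖(P i).g u‖ ^ 2 ≤ E)
    (hHh : H ≤ h / 8) (hm : m * H ≤ 3 / 8 * h)
    (hbad : ∀ i ∈ S, ∃ x : ℝ, -T ≤ x ∧ x + h ≤ T ∧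
      (oddZ (P i).Λ ∩ Set.Ioo x (x + h)).encard ≤ m)
    (M1 : ∀ v, 0 ≤ v → v ≤ Lc → ∑ i ∈ S, ‖(P i).f v‖ ^ 2 ≤ A1)
    (M2 : ∑ i ∈ S, ∫ v in Set.Ioi 0, ‖(P i).f v‖ ^ 2 ≤ A2)
    (M3 : ∀ u, |u| ≤ Lc → ∑ i ∈ S, ‖(P i).D u - (P i).g u‖ ^ 2 ≤ A1) :
    S.card * ((c * H) ^ 2 * (h / 2)) ≤
      2 * (4 * Real.pi * (A1 * (2 * Real.pi * H) + 4 / Lc ^ 2 * A2)) +
      2 * (2 * Real.pi * (A1 * (2 * Real.pi * H) +
        4 / Lc ^ 2 * (4 * A2 + S.card * (2 * E)))) := by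
  have hU := U_sum S P hH.le hL hA1 M1 M2
  have hV := V_sum S P hH.le hL hA1 hE M3 M2
  have hone : ∀ i ∈ S, (c * H) ^ 2 * (h / 2) ≤
      2 * (∫ t, ‖hat (fun u => (P i).f u * win H u) t‖ ^ 2) +
      2 * ∫ t, ‖hat (fun u => ((P i).D u - (P i).g u) * win H u) t‖ ^ 2 := by
    intro i hi
    obtain ⟨x, hx, hx', hlt⟩ := hbad i hi
    have hfin : (oddZ (P i).Λ ∩ Set.Ioo x (x + h)).Finite := by
      rw [← Set.encard_lt_top_iff]
      exact hlt.trans_lt (ENat.natCast_lt_top _)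
    refine (P i).bad_one hc hH (hlow i hi) hx hx' hHh hfin.toFinset
      (fun t ht => by simpa using ht) ?_
    rw [hfin.encard_eq_coe_toFinset_card] at hlt
    have h3 : hfin.toFinset.card ≤ m := by exact_mod_cast hlt
    have h4 : (hfin.toFinset.card : ℝ) ≤ m := by exact_mod_cast h3
    refine le_trans ?_ hm
    gcongr
  calc S.card * ((c * H) ^ 2 * (h / 2))
      = ∑ i ∈ S, (c * H) ^ 2 * (h / 2) := by
        rw [Finset.sum_const, nsmul_eq_mul]
    _ ≤ ∑ i ∈ S,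
        (2 * (∫ t, ‖hat (fun u => (P i).f u * win H u) t‖ ^ 2) +
          2 * ∫ t, ‖hat (fun u => ((P i).D u - (P i).g u) * win H u) t‖ ^ 2) :=
        Finset.sum_le_sum hone
    _ ≤ _ := by
        rw [Finset.sum_add_distrib, ← Finset.mul_sum, ← Finset.mul_sum]
        gcongr

/-- ENDGAME: a family satisfying the mean value estimates, all of whose members have at most
`h/H` odd zeros in some interval of length `h` inside `[-T,T]`, has at most `C' Φ / (h H L)`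
members. -/
theorem endgame {C c T c₀ H₀ E : ℝ} (hC : 0 ≤ C) (hc : 0 < c) (hc₀ : 0 < c₀) (hH₀ : 0 < H₀)
    (hE0 : 0 ≤ E) :
    ∃ C' : ℝ, 0 < C' ∧ ∀ (ι : Type*) (S : Finset ι) (P : ι → Piece) (L Φ : ℝ), 0 < L →
      (S.card : ℝ) ≤ Φ →
      (∀ i ∈ S, ∀ t : ℝ, -T ≤ t → t ≤ T → ∀ H : ℝ, 0 ≤ H → H ≤ H₀ →
        c₀ * H ≤ ‖∫ s in t..(t + H), hat (P i).g s‖) →
      (∀ i ∈ S, ∫ u, ‖(P i).g u‖ ^ 2 ≤ E) →
      (∀ v, 0 ≤ v → v ≤ c * L → ∑ i ∈ S, ‖(P i).f v‖ ^ 2 ≤ C * Φ / L) →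
      (∑ i ∈ S, ∫ v in Set.Ioi 0, ‖(P i).f v‖ ^ 2 ≤ C * Φ) →
      (∀ u, |u| ≤ c * L → ∑ i ∈ S, ‖(P i).D u - (P i).g u‖ ^ 2 ≤ C * Φ / L) →
      ∀ h H : ℝ, 0 < H → H ≤ h →
        (∀ i ∈ S, ∃ x : ℝ, -T ≤ x ∧ x + h ≤ T ∧
          (oddZ (P i).Λ ∩ Set.Ioo x (x + h)).encard ≤ ⌊h / H⌋₊) →
        (S.card : ℝ) ≤ C' * Φ / (h * H * L) := by
  have hpi := Real.pi_pos
  -- constants
  obtain ⟨K, hK⟩ : ∃ K : ℝ, K = 2 * (4 * Real.pi * (C * (2 * Real.pi) + 4 / c ^ 2 * C)) +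
      2 * (2 * Real.pi * (C * (2 * Real.pi) + 4 / c ^ 2 * (4 * C + 2 * E))) := ⟨_, rfl⟩
  have hK0 : 0 ≤ K := by rw [hK]; positivity
  set U : ℝ := |T| + 1 with hU
  have hU0 : 0 < U := by positivity
  set B : ℝ := (4 * K / c₀ ^ 2 + 2 * U) * (8 + 2 * U / H₀) with hB
  have hB0 : 0 < B := by positivity
  refine ⟨B, hB0, fun ι S P L Φ hL hcard hlow hE M1 M2 M3 h H hH hHh hbad => ?_⟩
  have hh : 0 < h := lt_of_lt_of_le hH hHh
  have hΦ : 0 ≤ Φ := le_trans (by positivity) hcard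
  set m : ℕ := ⌊h / H⌋₊ with hm
  -- if h > 2T nothing to prove
  by_cases hT : h ≤ 2 * U
  swap
  · have : S = ∅ := by
      rw [Finset.eq_empty_iff_forall_notMem]
      intro i hi
      obtain ⟨x, hx, hx', _⟩ := hbad i hi
      have := le_abs_self T
      have := neg_abs_le T
      push Not at hT
      rw [hU] at hT
      linarith
    rw [this]
    simp only [Finset.card_empty, Nat.cast_zero]
    positivity
  set Hs : ℝ := min (H / 8) H₀ with hHs
  have hHs0 : 0 < Hs := lt_min (by positivity) hH₀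
  have hHs8 : Hs ≤ H / 8 := min_le_left _ _
  have hHsH₀ : Hs ≤ H₀ := min_le_right _ _
  have hinv : 1 / Hs ≤ (8 + 2 * U / H₀) / H := by
    have hH2 : H ≤ 2 * U := hHh.trans hT
    rcases min_choice (H / 8) H₀ with h1 | h1
    · rw [hHs, h1, div_le_div_iff₀ (by positivity) hH]
      have : 0 ≤ 2 * U / H₀ * (H / 8) := by positivity
      nlinarith
    · rw [hHs, h1, div_le_div_iff₀ hH₀ hH]
      have e : (8 + 2 * U / H₀) * H₀ = 8 * H₀ + 2 * U := by field_simp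
      rw [e]
      linarith
  have main : (S.card : ℝ) ≤ (4 * K / c₀ ^ 2 + 2 * U) * Φ / (h * Hs * L) := by
    by_cases hHL : 1 ≤ Hs * L
    · have key := bad_card S P (T := T) (h := h) (c := c₀) (m := m) (H := Hs)
        (Lc := c * L) (A1 := C * Φ / L) (A2 := C * Φ) (E := E) hc₀.le hHs0
        (by positivity) (by positivity)
        (fun i hi t ht ht' => hlow i hi t ht ht' Hs hHs0.le hHsH₀) hE (by linarith) (by
          have h2 : (m : ℝ) ≤ h / H := Nat.floor_le (by positivity)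
          calc (m : ℝ) * Hs ≤ (h / H) * (H / 8) := by gcongr
            _ = h / 8 := by field_simp
            _ ≤ 3 / 8 * h := by linarith) hbad M1 M2 M3
      set n : ℝ := (S.card : ℝ) with hn
      have hn0 : 0 ≤ n := by positivity
      have step : n * ((c₀ * Hs) ^ 2 * (h / 2)) ≤ K * Φ * (Hs / L + 1 / L ^ 2) := by
        refine key.trans ?_
        have h64 : (4 : ℝ) / (c * L) ^ 2 = 4 / c ^ 2 * (1 / L ^ 2) := by
          field_simp
        have e1 : C * Φ / L * (2 * Real.pi * Hs) = C * (2 * Real.pi) * Φ * (Hs / L) := by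
          field_simp
        rw [h64, e1, hK]
        set X : ℝ := Hs / L with hX
        set Y : ℝ := 1 / L ^ 2 with hY
        set k : ℝ := 4 / c ^ 2 with hk
        have hX0 : 0 ≤ X := by positivity
        have hY0 : 0 ≤ Y := by positivity
        have hk0 : 0 ≤ k := by positivity
        have h1 : k * Y * (4 * (C * Φ) + n * (2 * E)) ≤ k * Y * (4 * (C * Φ) + Φ * (2 * E)) := by
          apply mul_le_mul_of_nonneg_left _ (by positivity)
          have := mul_le_mul_of_nonneg_right hcard (show 0 ≤ 2 * E by positivity)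
          linarith
        have h2 : 2 * (2 * Real.pi * (C * (2 * Real.pi) * Φ * X +
            k * Y * (4 * (C * Φ) + n * (2 * E)))) ≤
            2 * (2 * Real.pi * (C * (2 * Real.pi) * Φ * X +
              k * Y * (4 * (C * Φ) + Φ * (2 * E)))) := by
          apply mul_le_mul_of_nonneg_left _ (by norm_num)
          apply mul_le_mul_of_nonneg_left _ (by positivity)
          linarith
        have h3 : (2 * (4 * Real.pi * (C * (2 * Real.pi) + k * C)) +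
            2 * (2 * Real.pi * (C * (2 * Real.pi) + k * (4 * C + 2 * E)))) * Φ * (X + Y) -
            (2 * (4 * Real.pi * (C * (2 * Real.pi) * Φ * X + k * Y * (C * Φ))) +
            2 * (2 * Real.pi * (C * (2 * Real.pi) * Φ * X +
              k * Y * (4 * (C * Φ) + Φ * (2 * E))))) =
            8 * Real.pi * (2 * Real.pi * C * Φ * Y + k * C * Φ * X) +
            4 * Real.pi * (2 * Real.pi * C * Φ * Y + k * (4 * C + 2 * E) * Φ * X) := by ring
        have h4 : 0 ≤ 8 * Real.pi * (2 * Real.pi * C * Φ * Y + k * C * Φ * X) +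
            4 * Real.pi * (2 * Real.pi * C * Φ * Y + k * (4 * C + 2 * E) * Φ * X) := by
          positivity
        linarith
      have hHL' : Hs / L + 1 / L ^ 2 ≤ 2 * (Hs / L) := by
        have : 1 / L ^ 2 ≤ Hs / L := by
          rw [div_le_div_iff₀ (by positivity) hL]
          nlinarith
        linarith
      have step2 : n * ((c₀ * Hs) ^ 2 * (h / 2)) ≤ K * Φ * (2 * (Hs / L)) :=
        step.trans (by gcongr)
      have h5 : n ≤ 4 * K / c₀ ^ 2 * Φ / (h * Hs * L) := by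
        rw [le_div_iff₀ (by positivity)]
        have e2 : n * ((c₀ * Hs) ^ 2 * (h / 2)) =
            (n * (h * Hs * L)) * (c₀ ^ 2 * Hs / (2 * L)) := by
          field_simp
        have e3 : K * Φ * (2 * (Hs / L)) =
            (4 * K / c₀ ^ 2 * Φ) * (c₀ ^ 2 * Hs / (2 * L)) := by
          field_simp
          ring
        rw [e2, e3] at step2
        exact le_of_mul_le_mul_right step2 (by positivity)
      refine h5.trans ?_
      gcongr
      linarith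
    · push Not at hHL
      refine hcard.trans ?_
      rw [le_div_iff₀ (by positivity)]
      calc Φ * (h * Hs * L) = Φ * h * (Hs * L) := by ring
        _ ≤ Φ * (2 * U) * 1 := by gcongr
        _ ≤ (4 * K / c₀ ^ 2 + 2 * U) * Φ := by
          have : 0 ≤ 4 * K / c₀ ^ 2 * Φ := by positivity
          nlinarith
  refine main.trans ?_
  have e1 : (4 * K / c₀ ^ 2 + 2 * U) * Φ / (h * Hs * L) =
      (4 * K / c₀ ^ 2 + 2 * U) * Φ / (h * L) * (1 / Hs) := by
    field_simp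
  rw [e1]
  calc (4 * K / c₀ ^ 2 + 2 * U) * Φ / (h * L) * (1 / Hs)
      ≤ (4 * K / c₀ ^ 2 + 2 * U) * Φ / (h * L) * ((8 + 2 * U / H₀) / H) := by
        gcongr
    _ = B * Φ / (h * H * L) := by
        rw [hB]; field_simp

end Pool.Agent.ABS
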