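import Pool.Agent.Lib_helper24.ABS.Data

/-!
# Abstract fixed window, part A: the Fejér kernel (after helper44)
-/

noncomputable section

namespace Pool.Agent.ABS

open Complex MeasureTheory Filter Topology
open Pool.Agent.SQS (hat PL1 PL2 hat_eq_comp hat_fourier)
open scoped ENNReal Real FourierTransform

/-- triangle function -/
def tri (X v : ℝ) : ℝ := max 0 (1 - |v| / X)

/-- Fejér kernel -/
def fej (X x : ℝ) : ℝ := ‖win X x‖ ^ 2 / (2 * π * X)

theorem tri_continuous (X : ℝ) : Continuous (tri X) := by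
  unfold tri; fun_prop

theorem tri_nonneg (X v : ℝ) : 0 ≤ tri X v := le_max_left _ _

theorem tri_le {X : ℝ} (hX : 0 < X) (v : ℝ) : tri X v ≤ 1 := by
  unfold tri
  apply max_le zero_le_one
  have : 0 ≤ |v| / X := by positivity
  linarith

theorem tri_zero {X : ℝ} (hX : 0 < X) {v : ℝ} (hv : X ≤ |v|) : tri X v = 0 := by
  unfold tri
  apply max_eq_left
  have : 1 ≤ |v| / X := by rwa [one_le_div hX]
  linarith

theorem tri_neg (X v : ℝ) : tri X (-v) = tri X v := by unfold tri; rw [abs_neg]

theorem tri_of_nonneg {X : ℝ} (hX : 0 < X) {v : ℝ} (h0 : 0 ≤ v) (h1 : v ≤ X) :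
    tri X v = 1 - v / X := by
  unfold tri
  rw [abs_of_nonneg h0, max_eq_right]
  have : v / X ≤ 1 := by rwa [div_le_one hX]
  linarith

theorem tri_of_nonpos {X : ℝ} (hX : 0 < X) {v : ℝ} (h0 : v ≤ 0) (h1 : -X ≤ v) :
    tri X v = 1 + v / X := by
  have := tri_of_nonneg hX (v := -v) (by linarith) (by linarith)
  rw [tri_neg] at this
  rw [this]; ring

theorem tri_support {X : ℝ} (hX : 0 < X) (g : ℝ → ℂ) :
    Function.support (fun v => (tri X v : ℂ) * g v) ⊆ Set.Ioc (-X) X := by
  intro v hv
  rw [Function.mem_support] at hv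
  by_contra hcon
  apply hv
  rw [tri_zero hX, ofReal_zero, zero_mul]
  rw [Set.mem_Ioc, not_and_or, not_lt, not_le] at hcon
  rcases hcon with h | h
  · rw [le_abs]; right; linarith
  · rw [le_abs]; left; exact h.le

theorem tri_integrable {X : ℝ} (hX : 0 < X) {g : ℝ → ℂ} (hg : Continuous g) :
    Integrable (fun v => (tri X v : ℂ) * g v) := by
  have hc : Continuous (fun v => (tri X v : ℂ) * g v) :=
    (continuous_ofReal.comp (tri_continuous X)).mul hg
  have hs : HasCompactSupport (fun v => (tri X v : ℂ) * g v) :=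
    HasCompactSupport.intro (isCompact_Icc (a := -X) (b := X)) fun v hv => by
      by_contra hcon
      exact hv (Set.Ioc_subset_Icc_self (tri_support hX g hcon))
  exact hc.integrable_of_hasCompactSupport hs

theorem hat_tri_aux {X : ℝ} (hX : 0 < X) {x : ℝ} (hx : x ≠ 0) :
    hat (fun v => (tri X v : ℂ)) x = ((‖win X x‖ ^ 2 / X : ℝ) : ℂ) := by
  set c : ℂ := x * I with hc
  have hc0 : c ≠ 0 := mul_ne_zero (by exact_mod_cast hx) I_ne_zero
  have hX0 : (X : ℂ) ≠ 0 := by exact_mod_cast hX.ne'
  have e0 : hat (fun v => (tri X v : ℂ)) x = ∫ v in (-X)..X, (tri X v : ℂ) * cexp (c * v) := by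
    unfold hat
    rw [intervalIntegral.integral_eq_integral_of_support_subset
      (tri_support hX fun v => cexp (c * v))]
    congr 1; funext v; rw [hc]; congr 2; ring
  have hcont : Continuous (fun v : ℝ => (tri X v : ℂ) * cexp (c * v)) :=
    (continuous_ofReal.comp (tri_continuous X)).mul (by fun_prop)
  have hder : ∀ v : ℝ, HasDerivAt (fun v : ℝ => cexp (c * v)) (cexp (c * v) * c) v := by
    intro v
    have h1 : HasDerivAt (fun v : ℝ => c * (v : ℂ)) (c * 1) v :=
      (Complex.ofRealCLM.hasDerivAt (x := v)).const_mul c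
    simpa using h1.cexp
  have e1 : ∫ v in (0 : ℝ)..X, (tri X v : ℂ) * cexp (c * v) =
      cexp (c * X) / (X * c ^ 2) - 1 / c - 1 / (X * c ^ 2) := by
    have hF : ∀ v ∈ Set.uIcc (0 : ℝ) X, HasDerivAt
        (fun v : ℝ => (1 - (v : ℂ) / X) * cexp (c * v) / c + cexp (c * v) / (X * c ^ 2))
        ((tri X v : ℂ) * cexp (c * v)) v := by
      intro v hv
      rw [Set.uIcc_of_le hX.le] at hv
      have h1 : HasDerivAt (fun v : ℝ => (1 - (v : ℂ) / X)) (-(1 / X)) v := by
        have := ((Complex.ofRealCLM.hasDerivAt (x := v)).div_const (X : ℂ)).const_sub 1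
        simpa using this
      have h2 := ((h1.mul (hder v)).div_const c).add ((hder v).div_const (X * c ^ 2))
      refine h2.congr_deriv ?_
      rw [tri_of_nonneg hX hv.1 hv.2]
      push_cast
      field_simp
      ring
    rw [intervalIntegral.integral_eq_sub_of_hasDerivAt hF (hcont.intervalIntegrable _ _)]
    simp only [ofReal_zero, mul_zero, Complex.exp_zero, zero_div, sub_zero, div_self hX0,
      sub_self, zero_mul, zero_add]
    ring
  have e2 : ∫ v in (-X)..(0 : ℝ), (tri X v : ℂ) * cexp (c * v) =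
      1 / c - 1 / (X * c ^ 2) + cexp (-(c * X)) / (X * c ^ 2) := by
    have hF : ∀ v ∈ Set.uIcc (-X) (0 : ℝ), HasDerivAt
        (fun v : ℝ => (1 + (v : ℂ) / X) * cexp (c * v) / c - cexp (c * v) / (X * c ^ 2))
        ((tri X v : ℂ) * cexp (c * v)) v := by
      intro v hv
      rw [Set.uIcc_of_le (by linarith)] at hv
      have h1 : HasDerivAt (fun v : ℝ => (1 + (v : ℂ) / X)) (1 / X) v := by
        have := ((Complex.ofRealCLM.hasDerivAt (x := v)).div_const (X : ℂ)).const_add 1
        simpa using this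
      have h2 := ((h1.mul (hder v)).div_const c).sub ((hder v).div_const (X * c ^ 2))
      refine h2.congr_deriv ?_
      rw [tri_of_nonpos hX hv.2 hv.1]
      push_cast
      field_simp
      ring
    rw [intervalIntegral.integral_eq_sub_of_hasDerivAt hF (hcont.intervalIntegrable _ _)]
    have h3 : (c * ((-X : ℝ) : ℂ)) = -(c * X) := by push_cast; ring
    have h4 : (1 : ℂ) + ((-X : ℝ) : ℂ) / X = 0 := by push_cast; field_simp; ring
    rw [h3, h4]
    simp only [ofReal_zero, mul_zero, Complex.exp_zero, zero_div, add_zero,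
      zero_mul, zero_sub]
    ring
  rw [e0, ← intervalIntegral.integral_add_adjacent_intervals
    (hcont.intervalIntegrable (-X) 0) (hcont.intervalIntegrable 0 X), e1, e2]
  have hw : win X x = (cexp (c * X) - 1) / c := by
    unfold win
    have e : (fun s : ℝ => cexp (x * s * I)) = fun s : ℝ => cexp (c * s) := by
      funext s; rw [hc]; congr 1; ring
    rw [e, integral_exp_mul_complex hc0]
    simp
  have hcc : starRingEnd ℂ c = -c := by rw [hc]; simp
  have hwc : starRingEnd ℂ (win X x) = (cexp (-(c * X)) - 1) / (-c) := by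
    rw [hw, map_div₀, map_sub, map_one, ← Complex.exp_conj, map_mul, Complex.conj_ofReal, hcc]
    congr 3; ring
  have h5 : ((‖win X x‖ ^ 2 / X : ℝ) : ℂ) = win X x * starRingEnd ℂ (win X x) / X := by
    rw [Complex.mul_conj, Complex.normSq_eq_norm_sq]; push_cast; ring
  rw [h5, hwc, hw]
  have h6 : cexp (c * X) * cexp (-(c * X)) = 1 := by rw [← Complex.exp_add]; simp
  have h7 : (cexp (c * ↑X) - 1) / c * ((cexp (-(c * X)) - 1) / -c) / X =
    (cexp (c * X) + cexp (-(c * X)) - 1 - cexp (c * X) * cexp (-(c * X))) / (X * c ^ 2) := by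
    field_simp
    ring
  rw [h7, h6]
  field_simp
  ring

theorem hat_tri {X : ℝ} (hX : 0 < X) (x : ℝ) :
    hat (fun v => (tri X v : ℂ)) x = ((‖win X x‖ ^ 2 / X : ℝ) : ℂ) := by
  have hi : Integrable (fun v => (tri X v : ℂ)) := by
    simpa using tri_integrable hX (g := fun _ => 1) continuous_const
  have h1 : Continuous (hat (fun v => (tri X v : ℂ))) := continuous_hat hi
  have h2 : Continuous (fun x : ℝ => ((‖win X x‖ ^ 2 / X : ℝ) : ℂ)) := by
    have := win_continuous X
    fun_prop
  have h3 := Continuous.ext_on (dense_compl_singleton (0 : ℝ)) h1 h2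
    (fun x hx => hat_tri_aux hX hx)
  exact congrFun h3 x

theorem fej_continuous (X : ℝ) : Continuous (fej X) := by
  unfold fej
  have := win_continuous X
  fun_prop

theorem fej_nonneg {X : ℝ} (hX : 0 < X) (x : ℝ) : 0 ≤ fej X x := by
  unfold fej
  have := Real.pi_pos
  positivity

theorem fej_integrable {X : ℝ} (hX : 0 < X) : Integrable (fej X) := by
  unfold fej
  exact (win_sq hX.le).1.div_const _

theorem fej_integral {X : ℝ} (hX : 0 < X) : ∫ x, fej X x = 1 := by
  unfold fej
  rw [integral_div, (win_sq hX.le).2]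
  have := Real.pi_pos
  field_simp

theorem fej_neg {X : ℝ} (hX : 0 < X) (x : ℝ) : fej X (-x) = fej X x := by
  unfold fej; rw [win_neg hX.le]

theorem fej_le {X : ℝ} (hX : 0 < X) {x : ℝ} (hx : x ≠ 0) : fej X x ≤ 2 / (π * X) / x ^ 2 := by
  unfold fej
  have hpi := Real.pi_pos
  have h1 := win_le' X hx
  have h2 : ‖win X x‖ ^ 2 ≤ (2 / |x|) ^ 2 := by gcongr
  rw [div_pow, sq_abs] at h2
  have hx2 : 0 < x ^ 2 := by positivity
  rw [div_le_iff₀ (by positivity)]
  refine h2.trans (le_of_eq ?_)
  field_simp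

/-- Fourier inversion for the triangle -/
theorem hat_fej {X : ℝ} (hX : 0 < X) (v : ℝ) : hat (fun x => (fej X x : ℂ)) v = tri X v := by
  have hpi := Real.pi_pos
  have hi : Integrable (fun v => (tri X v : ℂ)) := by
    simpa using tri_integrable hX (g := fun _ => 1) continuous_const
  have hc : Continuous (fun v => (tri X v : ℂ)) := continuous_ofReal.comp (tri_continuous X)
  have hF : 𝓕 (fun v => (tri X v : ℂ)) = fun y => ((2 * π * fej X (2 * π * y) : ℝ) : ℂ) := by
    funext y
    rw [← congrFun (hat_fourier (fun v => (tri X v : ℂ))) y, hat_tri hX]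
    have : -(2 * π) * y = -(2 * π * y) := by ring
    rw [this, win_neg hX.le]
    unfold fej
    push_cast
    field_simp
  have hFi : Integrable (𝓕 (fun v => (tri X v : ℂ))) := by
    rw [hF]
    exact (((fej_integrable hX).comp_mul_left' (by positivity)).const_mul _).ofReal
  have key := congrFun (hc.fourierInv_fourier_eq hi hFi) v
  rw [Real.fourierInv_eq', hF] at key
  rw [← key]
  unfold hat
  have e1 := MeasureTheory.Measure.integral_comp_mul_left
    (fun x : ℝ => (fej X x : ℂ) * cexp (v * x * I)) (2 * π)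
  have e2 : |(2 * π)⁻¹| = (2 * π)⁻¹ := abs_of_pos (by positivity)
  rw [e2] at e1
  have e3 : ∫ x : ℝ, (fej X x : ℂ) * cexp (v * x * I) =
      (2 * π) • ∫ y : ℝ, (fej X (2 * π * y) : ℂ) * cexp (v * ((2 * π * y : ℝ) : ℂ) * I) := by
    rw [e1, smul_smul, mul_inv_cancel₀ (by positivity), one_smul]
  rw [e3, ← integral_smul]
  congr 1
  funext y
  simp only [smul_eq_mul, real_smul]
  have hin : (inner ℝ y v : ℝ) = v * y := by simp [RCLike.inner_apply]
  rw [hin]
  push_cast
  have : cexp (2 * π * (v * y) * I) = cexp (v * (2 * π * y) * I) := by congr 1; ring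
  rw [this]; ring

end Pool.Agent.ABS
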