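import Pool.Agent.Lib_helper24.ABS.FWB

/-!
# Abstract fixed window, part C: the main inequality for one piece (after helper44)
-/

noncomputable section

namespace Pool.Agent.ABS

open Complex MeasureTheory Filter Topology
open Pool.Agent.SQS (hat PL1 PL2 hat_eq_comp hat_fourier)
open scoped ENNReal Real FourierTransform

theorem norm_hat_le (h : ℝ → ℂ) (t : ℝ) : ‖hat h t‖ ≤ ∫ u, ‖h u‖ := by
  unfold hat
  refine (norm_integral_le_integral_norm _).trans (le_of_eq ?_)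
  congr 1; funext u
  rw [norm_mul, expI_norm, mul_one]

/-- bounded continuous times integrable -/
theorem bdd_mul_w {F : ℝ → ℂ} (hF : Continuous F) {B : ℝ} (hB : ∀ t, ‖F t‖ ≤ B) {w : ℝ → ℝ}
    (hw : Integrable w) : Integrable (fun t => F t * (w t : ℂ)) :=
  (hw.ofReal (𝕜 := ℂ)).bdd_mul hF.aestronglyMeasurable (Eventually.of_forall hB)

theorem hat_mul_w {f : ℝ → ℂ} (hf : Integrable f) {w : ℝ → ℝ} (hw : Integrable w) :
    Integrable (fun t => hat f t * (w t : ℂ)) :=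
  bdd_mul_w (continuous_hat hf) (norm_hat_le f) hw

theorem norm_hat_mul_w {f : ℝ → ℂ} (hf : Integrable f) {w : ℝ → ℝ} (hw : Integrable w)
    (hw0 : ∀ t, 0 ≤ w t) : Integrable (fun t => ‖hat f t‖ * w t) := by
  refine (hat_mul_w hf hw).norm.congr (Eventually.of_forall fun t => ?_)
  show ‖hat f t * (w t : ℂ)‖ = ‖hat f t‖ * w t
  rw [norm_mul, Complex.norm_real, Real.norm_of_nonneg (hw0 t)]

theorem sq_hat_mul_w {f : ℝ → ℂ} (hf : Integrable f) {w : ℝ → ℝ} (hw : Integrable w)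
    (hw0 : ∀ t, 0 ≤ w t) : Integrable (fun t => ‖hat f t‖ ^ 2 * w t) := by
  have hc := (continuous_hat hf).norm
  have h1 := (norm_hat_mul_w hf hw hw0).bdd_mul (c := ∫ u, ‖f u‖) hc.aestronglyMeasurable
    (Eventually.of_forall fun t => by rw [norm_norm]; exact norm_hat_le f t)
  refine h1.congr (Eventually.of_forall fun t => ?_)
  show ‖hat f t‖ * (‖hat f t‖ * w t) = ‖hat f t‖ ^ 2 * w t
  ring

/-- the main inequality for a piece without odd zeros in the window -/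
theorem Piece.fw_main (P : Piece) {t₀ H : ℝ} (h : ∀ s ∈ Set.Ioo t₀ (t₀ + H), s ∉ oddZ P.Λ)
    {w : ℝ → ℝ} (hw : Integrable w) (hw0 : ∀ t, 0 ≤ w t) :
    ‖∫ t : ℝ, hat P.g t * (w t : ℂ)‖ ≤
      ‖∫ v, P.f v * hat (fun t => (w t : ℂ)) v‖ +
      ‖∫ v, (P.D v - P.g v) * hat (fun t => (w t : ℂ)) v‖ +
      2 * ∫ t in (Set.Ioo t₀ (t₀ + H))ᶜ, ‖hat P.f t‖ * w t := by
  obtain ⟨W, hW, hfe⟩ := P.fe
  obtain ⟨θ, hθ, hph⟩ := phase_odd P.diff hW hfe t₀ (t₀ + H) h
  set J : Set ℝ := Set.Ioo t₀ (t₀ + H) with hJ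
  have hJm : MeasurableSet J := measurableSet_Ioo
  have nf := P.nf
  have nD := P.nD
  have n1 := P.ng
  have hwc : Integrable (fun t => (w t : ℂ)) := hw.ofReal
  rw [← hat_mult nf.int hwc, ← hat_mult (nD.sub n1).int hwc]
  have iF := hat_mul_w nf.int hw
  have iG := hat_mul_w nD.int hw
  have i1 := hat_mul_w n1.int hw
  have iY := norm_hat_mul_w nf.int hw hw0
  have e0 : ∫ t, hat (fun u => P.D u - P.g u) t * (w t : ℂ) =
      (∫ t, hat P.D t * (w t : ℂ)) - ∫ t, hat P.g t * (w t : ℂ) := by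
    rw [← integral_sub iG i1]
    congr 1; funext t
    rw [hat_sub nD.int n1.int]; ring
  rw [e0]
  -- splitting
  have sF := integral_add_compl hJm iF
  have sG := integral_add_compl hJm iG
  have e1 : ∫ t in J, hat P.f t * (w t : ℂ) =
      θ * ((∫ t in J, ‖hat P.f t‖ * w t : ℝ) : ℂ) := by
    rw [← integral_complex_ofReal, ← integral_const_mul]
    refine setIntegral_congr_fun hJm fun s hs => ?_
    show hat P.f s * (w s : ℂ) = θ * ((‖hat P.f s‖ * w s : ℝ) : ℂ)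
    rw [P.norm_hat, P.hD, P.hf, hph s hs, Complex.mul_conj, Complex.normSq_eq_norm_sq]
    simp only [norm_mul]
    push_cast
    ring
  set Q : ℝ := ∫ t in J, ‖hat P.f t‖ * w t with hQ
  set R : ℝ := ∫ t in Jᶜ, ‖hat P.f t‖ * w t with hR
  have hQ0 : 0 ≤ Q := integral_nonneg fun t => mul_nonneg (norm_nonneg _) (hw0 t)
  have hQn : ‖∫ t in J, hat P.f t * (w t : ℂ)‖ = Q := by
    rw [e1, norm_mul, hθ, one_mul, Complex.norm_real, Real.norm_of_nonneg hQ0]
  have hRn : ‖∫ t in Jᶜ, hat P.f t * (w t : ℂ)‖ ≤ R := by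
    refine (norm_integral_le_integral_norm _).trans (le_of_eq ?_)
    rw [hR]
    congr 1; funext t
    rw [norm_mul, Complex.norm_real, Real.norm_of_nonneg (hw0 t)]
  have hGn : ∀ A : Set ℝ, ‖∫ t in A, hat P.D t * (w t : ℂ)‖ ≤
      ∫ t in A, ‖hat P.f t‖ * w t := by
    intro A
    refine (norm_integral_le_integral_norm _).trans (le_of_eq ?_)
    congr 1; funext t
    rw [norm_mul, Complex.norm_real, Real.norm_of_nonneg (hw0 t), P.norm_hat]
  have f1 : Q ≤ ‖∫ t, hat P.f t * (w t : ℂ)‖ + R := by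
    rw [← hQn]
    have : ∫ t in J, hat P.f t * (w t : ℂ) =
        (∫ t, hat P.f t * (w t : ℂ)) - ∫ t in Jᶜ, hat P.f t * (w t : ℂ) := by
      rw [← sF]; ring
    rw [this]
    exact (norm_sub_le _ _).trans (by gcongr)
  have f2 : ‖∫ t, hat P.D t * (w t : ℂ)‖ ≤ Q + R := by
    rw [← sG]
    exact (norm_add_le _ _).trans (add_le_add (hGn J) (hGn Jᶜ))
  have f3 : ‖∫ t, hat P.g t * (w t : ℂ)‖ ≤
      ‖∫ t, hat P.D t * (w t : ℂ)‖ +
      ‖(∫ t, hat P.D t * (w t : ℂ)) - ∫ t, hat P.g t * (w t : ℂ)‖ := by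
    have := norm_sub_le (∫ t, hat P.D t * (w t : ℂ))
      ((∫ t, hat P.D t * (w t : ℂ)) - ∫ t, hat P.g t * (w t : ℂ))
    simpa using this
  linarith

/-- quadratic form of the main inequality -/
theorem Piece.fw_sq (P : Piece) {t₀ H : ℝ} (h : ∀ s ∈ Set.Ioo t₀ (t₀ + H), s ∉ oddZ P.Λ)
    {w : ℝ → ℝ} (hw : Integrable w) (hw0 : ∀ t, 0 ≤ w t) {p ω : ℝ} (hp : 0 < p) (hω : 0 < ω)
    (hωw : ∫ t in (Set.Ioo t₀ (t₀ + H))ᶜ, w t ≤ ω)
    (hlow : p ≤ ‖∫ t : ℝ, hat P.g t * (w t : ℂ)‖) :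
    p ^ 2 / 2 ≤
      2 * ‖∫ v, P.f v * hat (fun t => (w t : ℂ)) v‖ ^ 2 +
      2 * ‖∫ v, (P.D v - P.g v) * hat (fun t => (w t : ℂ)) v‖ ^ 2 +
      4 * ω * ∫ t in (Set.Ioo t₀ (t₀ + H))ᶜ, ‖hat P.f t‖ ^ 2 * w t := by
  have hm := hlow.trans (P.fw_main h hw hw0)
  have nf := P.nf
  set A := ‖∫ v, P.f v * hat (fun t => (w t : ℂ)) v‖ with hA
  set B := ‖∫ v, (P.D v - P.g v) * hat (fun t => (w t : ℂ)) v‖ with hB
  set R := ∫ t in (Set.Ioo t₀ (t₀ + H))ᶜ, ‖hat P.f t‖ * w t with hR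
  set V := ∫ t in (Set.Ioo t₀ (t₀ + H))ᶜ, ‖hat P.f t‖ ^ 2 * w t with hV
  set lam : ℝ := p / (4 * ω) with hlam
  have hlam0 : 0 < lam := by positivity
  have h1 : 2 * R ≤ lam * ω + V / lam := by
    have h2 : 2 * R ≤ ∫ t in (Set.Ioo t₀ (t₀ + H))ᶜ,
        (lam * w t + (‖hat P.f t‖ ^ 2 * w t) / lam) := by
      rw [hR, ← integral_const_mul]
      refine integral_mono ((norm_hat_mul_w nf.int hw hw0).const_mul 2).integrableOn
        ((hw.const_mul lam).add ((sq_hat_mul_w nf.int hw hw0).div_const lam)).integrableOn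
        fun t => ?_
      show 2 * (‖hat P.f t‖ * w t) ≤ lam * w t + (‖hat P.f t‖ ^ 2 * w t) / lam
      have h3 : 2 * ‖hat P.f t‖ ≤ lam + ‖hat P.f t‖ ^ 2 / lam := by
        rw [← sub_nonneg]
        have : lam + ‖hat P.f t‖ ^ 2 / lam - 2 * ‖hat P.f t‖ =
            (lam - ‖hat P.f t‖) ^ 2 / lam := by field_simp; ring
        rw [this]; positivity
      have h4 := mul_le_mul_of_nonneg_right h3 (hw0 t)
      calc 2 * (‖hat P.f t‖ * w t) = 2 * ‖hat P.f t‖ * w t := by ring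
        _ ≤ (lam + ‖hat P.f t‖ ^ 2 / lam) * w t := h4
        _ = _ := by ring
    refine h2.trans ?_
    rw [integral_add (hw.const_mul lam).integrableOn
      ((sq_hat_mul_w nf.int hw hw0).div_const lam).integrableOn, integral_const_mul, integral_div]
    gcongr
  have h5 : lam * ω = p / 4 := by rw [hlam]; field_simp
  have h6 : V / lam = 4 * ω * V / p := by rw [hlam]; field_simp
  rw [h5, h6] at h1
  have h7 : A ≤ p / 8 + 2 * A ^ 2 / p := by
    rw [← sub_nonneg]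
    have : p / 8 + 2 * A ^ 2 / p - A = (p - 4 * A) ^ 2 / (8 * p) := by field_simp; ring
    rw [this]; positivity
  have h8 : B ≤ p / 8 + 2 * B ^ 2 / p := by
    rw [← sub_nonneg]
    have : p / 8 + 2 * B ^ 2 / p - B = (p - 4 * B) ^ 2 / (8 * p) := by field_simp; ring
    rw [this]; positivity
  have h9 : p / 2 ≤ (2 * A ^ 2 + 2 * B ^ 2 + 4 * ω * V) / p := by
    have : (2 * A ^ 2 + 2 * B ^ 2 + 4 * ω * V) / p =
      2 * A ^ 2 / p + 2 * B ^ 2 / p + 4 * ω * V / p := by ring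
    rw [this]; linarith
  rw [le_div_iff₀ hp] at h9
  linarith [h9]

/-- lower bound of the reference integral against the smoothed window -/
theorem ref_fw {g : ℝ → ℂ} (hg : Integrable g) {m δ M T : ℝ} (hm0 : 0 < m) (hδ : 0 < δ)
    (hM : ∫ u, ‖g u‖ ≤ M)
    (hlow : ∀ t : ℝ, |t| ≤ T → m ≤ ‖hat g t‖)
    (hmod : ∀ t s : ℝ, |t| ≤ T → |s| ≤ T → |t - s| < δ → ‖hat g t - hat g s‖ ≤ m / 2)
    {t₀ : ℝ} (ht₀ : |t₀| + 1 ≤ T) {H : ℝ} (hH : 0 < H) (hH' : H ≤ min (δ / 2) 1)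
    {X : ℝ} (hX : 0 < X) :
      m / 4 * H - (m / 2 + M) * (8 / π) / X ≤
        ‖∫ t : ℝ, hat g t * (wker X (t₀ + H / 4) (H / 2) t : ℂ)‖ := by
  have hpi := Real.pi_pos
  set γ : ℝ → ℂ := hat g with hγ
  have hc : Continuous γ := continuous_hat hg
  have hM0 : 0 ≤ M := (integral_nonneg fun u => norm_nonneg _).trans hM
  have hγM : ∀ t, ‖γ t‖ ≤ M := fun t => (norm_hat_le _ _).trans hM
  have hHδ : H < δ := by
    have := hH'.trans (min_le_left _ _); linarith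
  have hH1 : H ≤ 1 := hH'.trans (min_le_right _ _)
  have ht0 := abs_nonneg t₀
  set w : ℝ → ℝ := wker X (t₀ + H / 4) (H / 2) with hw
  have hwi : Integrable w := wker_integrable hX _ (by linarith)
  have hw0 : ∀ t, 0 ≤ w t := wker_nonneg hX _ (by linarith)
  have hw1 : ∫ t, w t = H / 2 := wker_integral hX _ (by linarith)
  set J : Set ℝ := Set.Ioo t₀ (t₀ + H) with hJ
  have hJm : MeasurableSet J := measurableSet_Ioo
  set ω : ℝ := ∫ t in Jᶜ, w t with hω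
  have hωle : ω ≤ 8 / (π * X) := wker_tail hX t₀ hH
  have hω0 : 0 ≤ ω := integral_nonneg fun t => hw0 t
  have hJw : ∫ t in J, w t = H / 2 - ω := by
    have := integral_add_compl hJm hwi
    rw [hw1] at this
    linarith
  have hJw0 : 0 ≤ ∫ t in J, w t := integral_nonneg fun t => hw0 t
  have iγ : Integrable (fun t => γ t * (w t : ℂ)) := bdd_mul_w hc hγM hwi
  have s1 := integral_add_compl hJm iγ
  have hwc : Integrable (fun t => (w t : ℂ)) := hwi.ofReal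
  have e1 : ∫ t in J, γ t * (w t : ℂ) =
      γ t₀ * ((∫ t in J, w t : ℝ) : ℂ) + ∫ t in J, (γ t - γ t₀) * (w t : ℂ) := by
    rw [← integral_complex_ofReal, ← integral_const_mul, ← integral_add
      (hwc.const_mul _).integrableOn]
    · congr 1; funext t; ring
    · have : (fun t => (γ t - γ t₀) * (w t : ℂ)) = fun t => γ t * (w t : ℂ) - γ t₀ * (w t : ℂ) := by
        funext t; ring
      rw [this]
      exact (iγ.sub (hwc.const_mul _)).integrableOn
  have e2 : ‖∫ t in J, (γ t - γ t₀) * (w t : ℂ)‖ ≤ m / 2 * ∫ t in J, w t := by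
    rw [← integral_const_mul]
    refine norm_integral_le_of_norm_le (hwi.const_mul _).integrableOn ?_
    rw [ae_restrict_iff' hJm]
    refine Eventually.of_forall fun t ht => ?_
    have hb := abs_le.1 (le_refl |t₀|)
    have h1 := hmod t t₀ (by
      rw [abs_le]
      constructor
      · linarith [ht.1]
      · linarith [ht.2]) (by linarith) (by
      rw [abs_of_pos (by linarith [ht.1])]; linarith [ht.2])
    rw [norm_mul, Complex.norm_real, Real.norm_of_nonneg (hw0 t)]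
    exact mul_le_mul_of_nonneg_right h1 (hw0 t)
  have e3 : ‖γ t₀ * ((∫ t in J, w t : ℝ) : ℂ)‖ = ‖γ t₀‖ * ∫ t in J, w t := by
    rw [norm_mul, Complex.norm_real, Real.norm_of_nonneg hJw0]
  have e4 := hlow t₀ (by linarith)
  have e5 : m * ∫ t in J, w t ≤ ‖γ t₀‖ * ∫ t in J, w t := by gcongr
  have e6 : ‖γ t₀ * ((∫ t in J, w t : ℝ) : ℂ)‖ ≤ ‖∫ t in J, γ t * (w t : ℂ)‖ +
      ‖∫ t in J, (γ t - γ t₀) * (w t : ℂ)‖ := by
    rw [e1]
    have := norm_sub_le (γ t₀ * ((∫ t in J, w t : ℝ) : ℂ) + ∫ t in J, (γ t - γ t₀) * (w t : ℂ))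
      (∫ t in J, (γ t - γ t₀) * (w t : ℂ))
    simpa using this
  have e7 : ‖∫ t in Jᶜ, γ t * (w t : ℂ)‖ ≤ M * ω := by
    rw [hω, ← integral_const_mul]
    refine norm_integral_le_of_norm_le (hwi.const_mul _).integrableOn
      (Eventually.of_forall fun t => ?_)
    rw [norm_mul, Complex.norm_real, Real.norm_of_nonneg (hw0 t)]
    exact mul_le_mul_of_nonneg_right (hγM t) (hw0 t)
  have e8 : ‖∫ t in J, γ t * (w t : ℂ)‖ ≤ ‖∫ t, γ t * (w t : ℂ)‖ + ‖∫ t in Jᶜ, γ t * (w t : ℂ)‖ := by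
    rw [← s1]
    have := norm_sub_le ((∫ t in J, γ t * (w t : ℂ)) + ∫ t in Jᶜ, γ t * (w t : ℂ))
      (∫ t in Jᶜ, γ t * (w t : ℂ))
    simpa using this
  have e9 : (m / 2 + M) * ω ≤ (m / 2 + M) * (8 / (π * X)) := by gcongr
  have e10 : (m / 2 + M) * (8 / π) / X = (m / 2 + M) * (8 / (π * X)) := by field_simp
  rw [e10]
  show m / 4 * H - (m / 2 + M) * (8 / (π * X)) ≤ ‖∫ t, γ t * (w t : ℂ)‖
  rw [hJw] at e2 e3 e5
  rw [hJw] at e6
  rw [e3] at e6
  nlinarith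

end Pool.Agent.ABS
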