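import Pool.Agent.Lib_helper24.ABS.FWC

/-!
# Abstract fixed window, part D: families of pieces
-/

noncomputable section

namespace Pool.Agent.ABS

open Complex MeasureTheory Filter Topology
open Pool.Agent.SQS (hat PL1 PL2 hat_eq_comp hat_fourier)
open scoped ENNReal Real

/-- The hypotheses on a family of pieces. -/
structure Fam (C c T m δ M : ℝ) {ι : Type} (S : Finset ι) (P : ι → Piece) (L Φ : ℝ) : Prop where
  card : (S.card : ℝ) ≤ Φ
  s1 : ∀ W : ℝ → ℂ, Measurable W → (∃ B, ∀ v, ‖W v‖ ≤ B) → (∀ v, v < 0 ∨ c * L < v → W v = 0) →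
    ∑ i ∈ S, ‖∫ v, (P i).f v * W v‖ ^ 2 ≤ C * Φ / L * ∫ v, ‖W v‖ ^ 2
  s2 : ∀ W : ℝ → ℂ, Measurable W → (∃ B, ∀ v, ‖W v‖ ≤ B) → (∀ v, c * L < |v| → W v = 0) →
    ∑ i ∈ S, ‖∫ v, ((P i).D v - (P i).g v) * W v‖ ^ 2 ≤ C * Φ / L * ∫ v, ‖W v‖ ^ 2
  s3 : ∀ R : ℝ, 0 < R → ∀ t : ℝ,
    ∑ i ∈ S, ‖∫ v in Set.Ioc 0 R, (P i).f v * cexp (t * v * I)‖ ^ 2 ≤ C * Φ
  mass : ∀ i ∈ S, ∫ u, ‖(P i).g u‖ ≤ M
  low : ∀ i ∈ S, ∀ t : ℝ, |t| ≤ T → m ≤ ‖hat (P i).g t‖
  mod : ∀ i ∈ S, ∀ t s : ℝ, |t| ≤ T → |s| ≤ T → |t - s| < δ →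
    ‖hat (P i).g t - hat (P i).g s‖ ≤ m / 2

theorem Fam.mono {C c T m δ M : ℝ} {ι : Type} {S S' : Finset ι} {P : ι → Piece} {L Φ : ℝ}
    (F : Fam C c T m δ M S P L Φ) (h : S' ⊆ S) : Fam C c T m δ M S' P L Φ where
  card := le_trans (by exact_mod_cast Finset.card_le_card h) F.card
  s1 := fun W h1 h2 h3 => (Finset.sum_le_sum_of_subset_of_nonneg h
    fun _ _ _ => by positivity).trans (F.s1 W h1 h2 h3)
  s2 := fun W h1 h2 h3 => (Finset.sum_le_sum_of_subset_of_nonneg h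
    fun _ _ _ => by positivity).trans (F.s2 W h1 h2 h3)
  s3 := fun R hR t => (Finset.sum_le_sum_of_subset_of_nonneg h
    fun _ _ _ => by positivity).trans (F.s3 R hR t)
  mass := fun i hi => F.mass i (h hi)
  low := fun i hi => F.low i (h hi)
  mod := fun i hi => F.mod i (h hi)

/-- reduction to the half line -/
theorem Piece.half (P : Piece) {W : ℝ → ℂ} (hWm : Measurable W) {B : ℝ} (hWb : ∀ v, ‖W v‖ ≤ B) :
    ‖∫ v, P.f v * W v‖ ^ 2 ≤
      2 * ‖∫ v, P.f v * (if 0 ≤ v then W v else 0)‖ ^ 2 +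
      2 * ‖∫ v, P.f v * (if 0 < v then starRingEnd ℂ (W (-v)) else 0)‖ ^ 2 := by
  have hB0 : 0 ≤ B := (norm_nonneg _).trans (hWb 0)
  obtain ⟨ω, hω, hsym⟩ := P.symm'
  set W1 : ℝ → ℂ := fun v => if 0 ≤ v then W v else 0 with hW1
  set W2 : ℝ → ℂ := fun v => if 0 < v then starRingEnd ℂ (W (-v)) else 0 with hW2
  set W3 : ℝ → ℂ := fun v => if v < 0 then W v else 0 with hW3
  have hW1m : Measurable W1 := Measurable.ite measurableSet_Ici hWm measurable_const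
  have hW3m : Measurable W3 := Measurable.ite measurableSet_Iio hWm measurable_const
  have hfi : ∀ V : ℝ → ℂ, Measurable V → (∀ v, ‖V v‖ ≤ B) →
      Integrable (fun v => P.f v * V v) := fun V hV hVb =>
    P.nf.int.mul_bdd (c := B) hV.aestronglyMeasurable (Eventually.of_forall hVb)
  have hW1b : ∀ v, ‖W1 v‖ ≤ B := by
    intro v; simp only [hW1]; split_ifs
    · exact hWb v
    · simpa using hB0
  have hW3b : ∀ v, ‖W3 v‖ ≤ B := by
    intro v; simp only [hW3]; split_ifs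
    · exact hWb v
    · simpa using hB0
  have e1 : ∫ v, P.f v * W v = (∫ v, P.f v * W1 v) + ∫ v, P.f v * W3 v := by
    rw [← integral_add (hfi W1 hW1m hW1b) (hfi W3 hW3m hW3b)]
    congr 1; funext v
    simp only [hW1, hW3]
    rcases lt_or_ge v 0 with h0 | h0
    · rw [if_neg (not_le.2 h0), if_pos h0]; ring
    · rw [if_pos h0, if_neg (not_lt.2 h0)]; ring
  have e2 : ∫ v, P.f v * W3 v = ω * starRingEnd ℂ (∫ v, P.f v * W2 v) := by
    rw [← integral_conj, ← integral_const_mul]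
    rw [← integral_neg_eq_self (fun v => ω * starRingEnd ℂ (P.f v * W2 v)) volume]
    refine integral_congr_ae ?_
    filter_upwards [hsym] with v hv
    simp only [hW3, hW2]
    rcases lt_or_ge v 0 with h0 | h0
    · rw [if_pos h0, if_pos (by linarith), map_mul, Complex.conj_conj, neg_neg]
      rw [hv]; ring
    · rw [if_neg (not_lt.2 h0), if_neg (by linarith)]; simp
  have e3 : ‖∫ v, P.f v * W v‖ ≤ ‖∫ v, P.f v * W1 v‖ + ‖∫ v, P.f v * W2 v‖ := by
    rw [e1, e2]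
    refine (norm_add_le _ _).trans ?_
    rw [norm_mul, hω, one_mul, RCLike.norm_conj]
  have e4 : ‖∫ v, P.f v * W v‖ ^ 2 ≤ (‖∫ v, P.f v * W1 v‖ + ‖∫ v, P.f v * W2 v‖) ^ 2 := by
    gcongr
  nlinarith [sq_nonneg (‖∫ v, P.f v * W1 v‖ - ‖∫ v, P.f v * W2 v‖)]

theorem Fam.s1' {C c T m δ M : ℝ} {ι : Type} {S : Finset ι} {P : ι → Piece} {L Φ : ℝ}
    (F : Fam C c T m δ M S P L Φ) (hC : 0 ≤ C) (hL : 0 < L) {W : ℝ → ℂ} (hWm : Measurable W)
    (hWb : ∃ B, ∀ v, ‖W v‖ ≤ B) (hWs : ∀ v, c * L < |v| → W v = 0) :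
    ∑ i ∈ S, ‖∫ v, (P i).f v * W v‖ ^ 2 ≤ 4 * C * Φ / L * ∫ v, ‖W v‖ ^ 2 := by
  obtain ⟨B, hB⟩ := hWb
  have hB0 : 0 ≤ B := (norm_nonneg _).trans (hB 0)
  have hΦ : 0 ≤ Φ := le_trans (by positivity) F.card
  set W1 : ℝ → ℂ := fun v => if 0 ≤ v then W v else 0 with hW1
  set W2 : ℝ → ℂ := fun v => if 0 < v then starRingEnd ℂ (W (-v)) else 0 with hW2
  have hW1m : Measurable W1 := Measurable.ite measurableSet_Ici hWm measurable_const
  have hW2m : Measurable W2 :=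
    Measurable.ite measurableSet_Ioi
      (Complex.continuous_conj.measurable.comp (hWm.comp measurable_neg)) measurable_const
  have hW1b : ∀ v, ‖W1 v‖ ≤ B := by
    intro v; simp only [hW1]; split_ifs
    · exact hB v
    · simpa using hB0
  have hW2b : ∀ v, ‖W2 v‖ ≤ B := by
    intro v; simp only [hW2]; split_ifs
    · rw [RCLike.norm_conj]; exact hB _
    · simpa using hB0
  have hW1s : ∀ v, v < 0 ∨ c * L < v → W1 v = 0 := by
    intro v hv
    simp only [hW1]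
    split_ifs with h0
    · apply hWs
      rw [abs_of_nonneg h0]
      rcases hv with hv | hv
      · linarith
      · exact hv
    · rfl
  have hW2s : ∀ v, v < 0 ∨ c * L < v → W2 v = 0 := by
    intro v hv
    simp only [hW2]
    split_ifs with h0
    · rw [hWs, map_zero]
      rw [abs_neg, abs_of_pos h0]
      rcases hv with hv | hv
      · linarith
      · exact hv
    · rfl
  have hWi : Integrable (fun v => ‖W v‖ ^ 2) := by
    have e : (fun v => ‖W v‖ ^ 2) = (Set.Icc (-(c * L)) (c * L)).indicator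
        (fun v => ‖W v‖ ^ 2) := by
      funext v
      by_cases hv : v ∈ Set.Icc (-(c * L)) (c * L)
      · rw [Set.indicator_of_mem hv]
      · rw [Set.indicator_of_notMem hv, hWs]
        · simp
        · by_contra hcon
          exact hv (abs_le.1 (not_lt.1 hcon))
    rw [e, integrable_indicator_iff measurableSet_Icc]
    refine Measure.integrableOn_of_bounded (M := B ^ 2) (by simp)
      (hWm.norm.pow_const 2).aestronglyMeasurable ?_
    filter_upwards with v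
    rw [Real.norm_of_nonneg (by positivity)]
    exact pow_le_pow_left₀ (norm_nonneg _) (hB v) 2
  have hI1 : ∫ v, ‖W1 v‖ ^ 2 ≤ ∫ v, ‖W v‖ ^ 2 := by
    refine integral_mono_of_nonneg (Eventually.of_forall fun v => by positivity) hWi
      (Eventually.of_forall fun v => ?_)
    simp only [hW1]; split_ifs
    · exact le_rfl
    · simp
  have hI2 : ∫ v, ‖W2 v‖ ^ 2 ≤ ∫ v, ‖W v‖ ^ 2 := by
    have e : ∫ v, ‖W v‖ ^ 2 = ∫ v, ‖W (-v)‖ ^ 2 :=
      (integral_neg_eq_self (fun v => ‖W v‖ ^ 2) volume).symm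
    rw [e]
    refine integral_mono_of_nonneg (Eventually.of_forall fun v => by positivity) hWi.comp_neg
      (Eventually.of_forall fun v => ?_)
    simp only [hW2]; split_ifs
    · rw [RCLike.norm_conj]
    · simp
  have hs1 := F.s1 W1 hW1m ⟨B, hW1b⟩ hW1s
  have hs2 := F.s1 W2 hW2m ⟨B, hW2b⟩ hW2s
  have hA : 0 ≤ C * Φ / L := by positivity
  calc ∑ i ∈ S, ‖∫ v, (P i).f v * W v‖ ^ 2
      ≤ ∑ i ∈ S, (2 * ‖∫ v, (P i).f v * W1 v‖ ^ 2 + 2 * ‖∫ v, (P i).f v * W2 v‖ ^ 2) :=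
        Finset.sum_le_sum fun i _ => (P i).half hWm hB
    _ ≤ 2 * (C * Φ / L * ∫ v, ‖W v‖ ^ 2) + 2 * (C * Φ / L * ∫ v, ‖W v‖ ^ 2) := by
        rw [Finset.sum_add_distrib, ← Finset.mul_sum, ← Finset.mul_sum]
        have h5 := hs1.trans (mul_le_mul_of_nonneg_left hI1 hA)
        have h6 := hs2.trans (mul_le_mul_of_nonneg_left hI2 hA)
        linarith
    _ = _ := by ring

/-- the full transform in terms of the half line -/
theorem Piece.hat_half (P : Piece) (t : ℝ) :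
    ‖hat P.f t‖ ≤ 2 * ‖∫ v in Set.Ioi 0, P.f v * cexp (t * v * I)‖ := by
  obtain ⟨ω, hω, hsym⟩ := P.symm'
  have hi := hat_integrable P.nf.int t
  have e1 : hat P.f t = (∫ v in Set.Ioi 0, P.f v * cexp (t * v * I)) +
      ∫ v in Set.Iic 0, P.f v * cexp (t * v * I) := by
    unfold hat
    rw [add_comm]
    exact (intervalIntegral.integral_Iic_add_Ioi hi.integrableOn hi.integrableOn).symm
  have e2 : ∫ v in Set.Iic 0, P.f v * cexp (t * v * I) =
      ω * starRingEnd ℂ (∫ v in Set.Ioi 0, P.f v * cexp (t * v * I)) := by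
    have h3 := integral_comp_neg_Ioi (0 : ℝ) (fun v => P.f v * cexp (t * v * I))
    rw [neg_zero] at h3
    rw [← h3, ← integral_conj, ← integral_const_mul]
    refine integral_congr_ae ?_
    have hsym' : ∀ᵐ v : ℝ, P.f (-v) = ω * starRingEnd ℂ (P.f v) := by
      have := (Measure.measurePreserving_neg (volume : Measure ℝ)).quasiMeasurePreserving.ae hsym
      filter_upwards [this] with v hv
      rw [hv, neg_neg]
    filter_upwards [ae_restrict_of_ae hsym'] with v hv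
    rw [hv, map_mul, ← Complex.exp_conj]
    have e3 : starRingEnd ℂ ((t : ℂ) * v * I) = (t : ℂ) * ((-v : ℝ) : ℂ) * I := by
      rw [map_mul, map_mul, Complex.conj_ofReal, Complex.conj_ofReal, Complex.conj_I]
      push_cast; ring
    rw [e3]; ring
  rw [e1, e2]
  refine (norm_add_le _ _).trans ?_
  rw [norm_mul, hω, one_mul, RCLike.norm_conj]
  linarith

theorem Fam.s3' {C c T m δ M : ℝ} {ι : Type} {S : Finset ι} {P : ι → Piece} {L Φ : ℝ}
    (F : Fam C c T m δ M S P L Φ) (t : ℝ) :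
    ∑ i ∈ S, ‖hat (P i).f t‖ ^ 2 ≤ 4 * C * Φ := by
  have h1 : ∑ i ∈ S, ‖∫ v in Set.Ioi 0, (P i).f v * cexp (t * v * I)‖ ^ 2 ≤ C * Φ := by
    have hlim : Tendsto (fun R : ℝ => ∑ i ∈ S,
        ‖∫ v in (0 : ℝ)..R, (P i).f v * cexp (t * v * I)‖ ^ 2) atTop
        (𝓝 (∑ i ∈ S, ‖∫ v in Set.Ioi 0, (P i).f v * cexp (t * v * I)‖ ^ 2)) := by
      refine tendsto_finsetSum _ fun i _ => ?_
      have := intervalIntegral_tendsto_integral_Ioi (a := (0 : ℝ)) (b := fun R : ℝ => R)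
        (l := atTop) (hat_integrable (P i).nf.int t).integrableOn tendsto_id
      exact (this.norm).pow 2
    refine le_of_tendsto hlim ?_
    filter_upwards [eventually_gt_atTop 0] with R hR
    have := F.s3 R hR t
    simpa only [intervalIntegral.integral_of_le hR.le] using this
  calc ∑ i ∈ S, ‖hat (P i).f t‖ ^ 2
      ≤ ∑ i ∈ S, 4 * ‖∫ v in Set.Ioi 0, (P i).f v * cexp (t * v * I)‖ ^ 2 := by
        refine Finset.sum_le_sum fun i _ => ?_
        have := (P i).hat_half t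
        calc ‖hat (P i).f t‖ ^ 2
            ≤ (2 * ‖∫ v in Set.Ioi 0, (P i).f v * cexp (t * v * I)‖) ^ 2 := by gcongr
          _ = _ := by ring
    _ = 4 * ∑ i ∈ S, ‖∫ v in Set.Ioi 0, (P i).f v * cexp (t * v * I)‖ ^ 2 := by
        rw [Finset.mul_sum]
    _ ≤ 4 * (C * Φ) := by gcongr
    _ = _ := by ring

/-- families without odd zeros in one window -/
theorem Fam.empty_card {C c T m δ M : ℝ} {ι : Type} {S : Finset ι} {P : ι → Piece} {L Φ : ℝ}
    (F : Fam C c T m δ M S P L Φ) (hC : 0 ≤ C) (hc : 0 < c) (hm : 0 < m) (hδ : 0 < δ)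
    (hM : 0 ≤ M) (hL : 0 < L) {t₀ H : ℝ} (ht₀ : |t₀| + 1 ≤ T) (hH : 0 < H)
    (hH' : H ≤ min (δ / 2) 1) (hS : ∀ i ∈ S, ∀ s ∈ Set.Ioo t₀ (t₀ + H), s ∉ oddZ (P i).Λ) :
    (S.card : ℝ) ≤ max (max 1 (8 * ((m / 2 + M) * (8 / π)) / (m * c)))
      (16 * (80 * π * C) / m ^ 2 + 16 * (8192 * C) / (π ^ 2 * c ^ 2 * m ^ 2)) * Φ / (H * L) := by
  have hpi := Real.pi_pos
  have hΦ : 0 ≤ Φ := le_trans (by positivity) F.card
  set D : ℝ := max 1 (8 * ((m / 2 + M) * (8 / π)) / (m * c)) with hD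
  set K : ℝ := 16 * (80 * π * C) / m ^ 2 + 16 * (8192 * C) / (π ^ 2 * c ^ 2 * m ^ 2) with hK
  have hHL : 0 < H * L := by positivity
  have hD1 : 1 ≤ D := le_max_left _ _
  rcases lt_or_ge (H * L) D with hDL | hDL
  · refine F.card.trans ?_
    rw [le_div_iff₀ hHL]
    have h1 : H * L ≤ max D K := hDL.le.trans (le_max_left _ _)
    nlinarith
  have hone : 1 ≤ H * L := hD1.trans hDL
  have hbig : 8 * ((m / 2 + M) * (8 / π)) / (m * c) ≤ H * L := (le_max_right _ _).trans hDL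
  set X : ℝ := c * L with hX
  have hX0 : 0 < X := by positivity
  set w : ℝ → ℝ := wker X (t₀ + H / 4) (H / 2) with hw
  have hwi : Integrable w := wker_integrable hX0 _ (by linarith)
  have hw0 : ∀ t, 0 ≤ w t := wker_nonneg hX0 _ (by linarith)
  set J : Set ℝ := Set.Ioo t₀ (t₀ + H) with hJ
  set ω : ℝ := 8 / (π * X) with hω
  have hω0 : 0 < ω := by positivity
  have hωw : ∫ t in Jᶜ, w t ≤ ω := wker_tail hX0 t₀ hH
  set W : ℝ → ℂ := hat (fun t => (w t : ℂ)) with hW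
  have hWe : ∀ v, W v = tri X v * (win (H / 2) v * cexp (((t₀ + H / 4 : ℝ) : ℂ) * v * I)) := by
    intro v; rw [hW, hw]; exact hat_wker hX0 _ (by linarith) v
  have hWm : Measurable W := (continuous_hat hwi.ofReal).measurable
  have hWb : ∃ B, ∀ v, ‖W v‖ ≤ B := ⟨_, fun v => norm_hat_le _ v⟩
  have hWs : ∀ v, c * L < |v| → W v = 0 := by
    intro v hv
    rw [hWe, tri_zero hX0 hv.le, ofReal_zero, zero_mul]
  have hW2 : ∫ v, ‖W v‖ ^ 2 ≤ π * H := by
    have h1 := Wsq_le hX0 (t₀ + H / 4) (l := H / 2) (by linarith)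
    have h2 : (fun v => ‖W v‖ ^ 2) = fun v : ℝ => ‖(tri X v : ℂ) * (win (H / 2) v *
        cexp (((t₀ + H / 4 : ℝ) : ℂ) * v * I))‖ ^ 2 := by
      funext v; rw [hWe]
    rw [h2]
    refine h1.trans (le_of_eq ?_)
    ring
  set p : ℝ := m / 4 * H / 2 with hp
  have hp0 : 0 < p := by positivity
  have hlow' : ∀ i ∈ S, p ≤ ‖∫ t : ℝ, hat (P i).g t * (w t : ℂ)‖ := by
    intro i hi
    refine le_trans ?_ (ref_fw (P i).ng.int hm hδ (F.mass i hi) (F.low i hi) (F.mod i hi) ht₀ hH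
      hH' hX0)
    have h1 : (m / 2 + M) * (8 / π) / X ≤ m / 4 * H / 2 := by
      rw [div_le_iff₀ (by positivity)] at hbig
      rw [hX, div_le_iff₀ (by positivity)]
      nlinarith
    rw [hp]; linarith
  set FF : ι → ℝ := fun i => ∫ t in Jᶜ, ‖hat (P i).f t‖ ^ 2 * w t with hFF
  have hint : ∀ i ∈ S, Integrable (fun t => ‖hat (P i).f t‖ ^ 2 * w t) := by
    intro i _
    exact sq_hat_mul_w (P i).nf.int hwi hw0
  have hone' : ∀ i ∈ S, p ^ 2 / 2 ≤
      2 * ‖∫ v, (P i).f v * W v‖ ^ 2 +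
      2 * ‖∫ v, ((P i).D v - (P i).g v) * W v‖ ^ 2 +
      4 * ω * FF i := by
    intro i hi
    exact (P i).fw_sq (hS i hi) hwi hw0 hp0 hω0 hωw (hlow' i hi)
  have hFs : ∑ i ∈ S, FF i ≤ 4 * C * Φ * ω := by
    rw [hFF, ← integral_finsetSum _ fun i hi => (hint i hi).integrableOn]
    calc ∫ t in Jᶜ, ∑ i ∈ S, ‖hat (P i).f t‖ ^ 2 * w t
        ≤ ∫ t in Jᶜ, 4 * C * Φ * w t := by
          refine integral_mono (integrable_finsetSum _ fun i hi => (hint i hi).integrableOn)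
            (hwi.const_mul _).integrableOn fun t => ?_
          show ∑ i ∈ S, ‖hat (P i).f t‖ ^ 2 * w t ≤ 4 * C * Φ * w t
          rw [← Finset.sum_mul]
          exact mul_le_mul_of_nonneg_right (F.s3' t) (hw0 t)
      _ = 4 * C * Φ * ∫ t in Jᶜ, w t := by rw [integral_const_mul]
      _ ≤ 4 * C * Φ * ω := by gcongr
  have h1 := F.s1' hC hL hWm hWb hWs
  have h2 := F.s2 W hWm hWb hWs
  have h1' : ∑ i ∈ S, ‖∫ v, (P i).f v * W v‖ ^ 2 ≤ 4 * C * Φ / L * (π * H) :=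
    h1.trans (by gcongr)
  have h2' : ∑ i ∈ S, ‖∫ v, ((P i).D v - (P i).g v) * W v‖ ^ 2 ≤ C * Φ / L * (π * H) :=
    h2.trans (by gcongr)
  have key : (S.card : ℝ) * (p ^ 2 / 2) ≤ 2 * (4 * C * Φ / L * (π * H)) +
      2 * (C * Φ / L * (π * H)) + 4 * ω * (4 * C * Φ * ω) := by
    calc (S.card : ℝ) * (p ^ 2 / 2) = ∑ i ∈ S, p ^ 2 / 2 := by
          rw [Finset.sum_const, nsmul_eq_mul]
      _ ≤ _ := Finset.sum_le_sum hone'
      _ ≤ _ := by
          rw [Finset.sum_add_distrib, Finset.sum_add_distrib, ← Finset.mul_sum,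
            ← Finset.mul_sum, ← Finset.mul_sum]
          gcongr
  have h5 : (S.card : ℝ) ≤ (2 * (4 * C * Φ / L * (π * H)) +
      2 * (C * Φ / L * (π * H)) + 4 * ω * (4 * C * Φ * ω)) / (p ^ 2 / 2) := by
    rw [le_div_iff₀ (by positivity)]; exact key
  refine h5.trans ?_
  have h6 : (2 * (4 * C * Φ / L * (π * H)) +
      2 * (C * Φ / L * (π * H)) + 4 * ω * (4 * C * Φ * ω)) / (p ^ 2 / 2) =
      16 * (80 * π * C) / m ^ 2 * Φ / (H * L) +
        16 * (8192 * C) / (π ^ 2 * c ^ 2 * m ^ 2) * Φ / (H * L) ^ 2 := by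
    rw [hω, hp, hX]
    field_simp
    ring
  rw [h6]
  have h7 : 16 * (8192 * C) / (π ^ 2 * c ^ 2 * m ^ 2) * Φ / (H * L) ^ 2 ≤
      16 * (8192 * C) / (π ^ 2 * c ^ 2 * m ^ 2) * Φ / (H * L) := by
    have h8 : (H * L) ≤ (H * L) ^ 2 := by nlinarith
    exact div_le_div_of_nonneg_left (by positivity) hHL h8
  calc _ ≤ 16 * (80 * π * C) / m ^ 2 * Φ / (H * L) +
        16 * (8192 * C) / (π ^ 2 * c ^ 2 * m ^ 2) * Φ / (H * L) := by linarith
    _ = K * Φ / (H * L) := by rw [hK]; ring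
    _ ≤ max D K * Φ / (H * L) := by gcongr; exact le_max_right _ _

/-- the same for all windows of length at most `1` -/
theorem Fam.empty_card' {C c T m δ M : ℝ} (hC : 0 ≤ C) (hc : 0 < c) (hm : 0 < m) (hδ : 0 < δ)
    (hM : 0 ≤ M) : ∃ C' : ℝ, 0 < C' ∧ ∀ (ι : Type) (S : Finset ι) (P : ι → Piece) (L Φ : ℝ),
      0 < L → Fam C c T m δ M S P L Φ → ∀ t₀ H : ℝ, |t₀| + 1 ≤ T → 0 < H → H ≤ 1 →
      (∀ i ∈ S, ∀ s ∈ Set.Ioo t₀ (t₀ + H), s ∉ oddZ (P i).Λ) →
      (S.card : ℝ) ≤ C' * Φ / (H * L) := by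
  have hpi := Real.pi_pos
  set K : ℝ := max (max 1 (8 * ((m / 2 + M) * (8 / π)) / (m * c)))
      (16 * (80 * π * C) / m ^ 2 + 16 * (8192 * C) / (π ^ 2 * c ^ 2 * m ^ 2)) with hK
  have hK0 : 0 < K := lt_of_lt_of_le one_pos ((le_max_left _ _).trans (le_max_left _ _))
  set H₀ : ℝ := min (δ / 2) 1 with hH₀
  have hH₀0 : 0 < H₀ := by positivity
  have hH₀1 : H₀ ≤ 1 := min_le_right _ _
  refine ⟨K / H₀, by positivity, fun ι S P L Φ hL F t₀ H ht₀ hH hH1 hS => ?_⟩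
  have hΦ : 0 ≤ Φ := le_trans (by positivity) F.card
  set H' : ℝ := min H H₀ with hH'
  have hH'0 : 0 < H' := lt_min hH hH₀0
  have h1 := F.empty_card hC hc hm hδ hM hL ht₀ hH'0 (min_le_right _ _) (fun i hi s hs =>
    hS i hi s ⟨hs.1, lt_of_lt_of_le hs.2 (by
      have := min_le_left H H₀
      linarith)⟩)
  refine h1.trans ?_
  have h3 : H * H₀ ≤ H' := by
    apply le_min
    · nlinarith
    · nlinarith
  have h4 : K * Φ / (H' * L) ≤ K * Φ / (H * H₀ * L) :=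
    div_le_div_of_nonneg_left (by positivity) (by positivity)
      (mul_le_mul_of_nonneg_right h3 hL.le)
  refine h4.trans (le_of_eq ?_)
  field_simp

end Pool.Agent.ABS
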