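import Pool.Agent.Lib_helper24.ABS.FWD

/-!
# Abstract fixed window, part E: all intervals of length `h` inside `[a, b]` (after helper44)
-/

noncomputable section

namespace Pool.Agent.ABS

open Complex MeasureTheory Filter Topology
open Pool.Agent.SQS (hat PL1 PL2 hat_eq_comp hat_fourier)
open scoped ENNReal Real

open Classical in
/-- number of cells of an interval containing no point of a small set -/
theorem cells_empty {x d : ℝ} (hd : 0 < d) {M n : ℕ} {Z : Set ℝ} (hZ : Z.encard ≤ n)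
    (_hM : ∀ t ∈ Z, x < t ∧ t < x + M * d) :
    M ≤ n + ((Finset.range M).filter fun j : ℕ =>
      ∀ s ∈ Set.Ioo (x + j * d) (x + j * d + d), s ∉ Z).card := by
  have hfin : Z.Finite := by
    rw [← Set.encard_lt_top_iff]
    exact hZ.trans_lt (ENat.natCast_lt_top _)
  set F := hfin.toFinset with hF
  have hFn : F.card ≤ n := by
    rw [hfin.encard_eq_coe_toFinset_card] at hZ
    exact_mod_cast hZ
  set E := (Finset.range M).filter fun j : ℕ =>
      ∀ s ∈ Set.Ioo (x + j * d) (x + j * d + d), s ∉ Z with hE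
  have h1 : (Finset.range M) \ E ⊆ F.image fun t => ⌊(t - x) / d⌋₊ := by
    intro j hj
    rw [Finset.mem_sdiff, hE, Finset.mem_filter, not_and] at hj
    have hj' := hj.2 hj.1
    push Not at hj'
    obtain ⟨s, hs, hsZ⟩ := hj'
    rw [Finset.mem_image]
    refine ⟨s, by rw [hF]; simpa using hsZ, ?_⟩
    rw [Nat.floor_eq_iff (div_nonneg (by
      have := hs.1
      have h0 : (0 : ℝ) ≤ j * d := by positivity
      linarith) hd.le)]
    constructor
    · rw [le_div_iff₀ hd]; linarith [hs.1]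
    · rw [div_lt_iff₀ hd]; linarith [hs.2]
  have h2 : ((Finset.range M) \ E).card ≤ n :=
    (Finset.card_le_card h1).trans (Finset.card_image_le.trans hFn)
  have h3 : (Finset.range M).card ≤ ((Finset.range M) \ E).card + E.card := by
    rw [← Finset.card_sdiff_add_card_inter (Finset.range M) E]
    exact Nat.add_le_add_left (Finset.card_le_card Finset.inter_subset_right) _
  rw [Finset.card_range] at h3
  omega

/-- fixed interval, all scales -/
theorem Fam.short {C c T m δ M : ℝ} (hC : 0 ≤ C) (hc : 0 < c) (hm : 0 < m) (hδ : 0 < δ)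
    (hM : 0 ≤ M) : ∃ C' : ℝ, 0 < C' ∧ ∀ (ι : Type) (S : Finset ι) (P : ι → Piece) (L Φ : ℝ),
      0 < L → Fam C c T m δ M S P L Φ → ∀ x η h : ℝ, |x| + 2 ≤ T → 0 < η → η ≤ h → h ≤ 1 →
      (∀ i ∈ S, (oddZ (P i).Λ ∩ Set.Ioo x (x + h)).encard ≤ ⌊h / η⌋₊) →
      (S.card : ℝ) ≤ C' * Φ / (η * L) := by
  classical
  obtain ⟨C', hC', hw⟩ := Fam.empty_card' (T := T) hC hc hm hδ hM
  refine ⟨8 * C', by positivity, fun ι S P L Φ hL F x η h hx hη hηh hh hS => ?_⟩
  have hφ : 0 ≤ Φ := le_trans (by positivity) F.card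
  have hh0 : 0 < h := hη.trans_le hηh
  set n : ℕ := ⌊h / η⌋₊ with hn
  have hn1 : 1 ≤ n := by
    rw [hn, Nat.one_le_floor_iff, one_le_div hη]; exact hηh
  have hnle : (n : ℝ) ≤ h / η := Nat.floor_le (by positivity)
  have hn1' : (1 : ℝ) ≤ n := by exact_mod_cast hn1
  set N : ℕ := 2 * (n + 1) with hN
  have hNpos : (0 : ℝ) < N := by rw [hN]; positivity
  set d : ℝ := h / N with hd
  have hd0 : 0 < d := by positivity
  have hNd : N * d = h := by rw [hd]; field_simp
  have hdη : η / 4 ≤ d := by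
    rw [hd, le_div_iff₀ hNpos, hN]
    push_cast
    rw [le_div_iff₀ hη] at hnle
    nlinarith
  have hdh : d ≤ 1 := by
    have : (1 : ℝ) ≤ N := by
      have : 1 ≤ N := by omega
      exact_mod_cast this
    have h2 : d ≤ h := div_le_self hh0.le this
    linarith
  have hcell : ∀ j ∈ Finset.range N,
      ((S.filter fun i => ∀ s ∈ Set.Ioo (x + j * d) (x + j * d + d), s ∉ oddZ (P i).Λ).card : ℝ) ≤
        4 * C' * Φ / (η * L) := by
    intro j hj
    have hjN : (j : ℝ) ≤ N := by exact_mod_cast (Finset.mem_range.1 hj).le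
    have hjd0 : 0 ≤ j * d := by positivity
    have hjd : j * d ≤ h := by rw [← hNd]; gcongr
    have hxa := abs_nonneg x
    have h0 : |x + j * d| ≤ |x| + 1 := by
      refine (abs_add_le _ _).trans ?_
      rw [abs_of_nonneg hjd0]; linarith
    have h1 := hw ι (S.filter fun i => ∀ s ∈ Set.Ioo (x + j * d) (x + j * d + d),
      s ∉ oddZ (P i).Λ) P L Φ hL (F.mono (Finset.filter_subset _ _)) (x + j * d) d
      (by linarith) hd0 hdh (fun i hi => (Finset.mem_filter.1 hi).2)
    refine h1.trans ?_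
    have h3 : η * L / 4 ≤ d * L := by nlinarith
    calc C' * Φ / (d * L) ≤ C' * Φ / (η * L / 4) :=
          div_le_div_of_nonneg_left (by positivity) (by positivity) h3
      _ = _ := by field_simp
  have hper : ∀ i ∈ S, (n : ℝ) + 2 ≤ ∑ j ∈ Finset.range N,
      if (∀ s ∈ Set.Ioo (x + j * d) (x + j * d + d), s ∉ oddZ (P i).Λ) then (1 : ℝ) else 0 := by
    intro i hi
    have h1 := cells_empty (x := x) hd0 (M := N) (hS i hi) (fun t ht => ⟨ht.2.1, by
      rw [hNd]; exact ht.2.2⟩)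
    rw [← Finset.sum_filter, Finset.sum_const, nsmul_eq_mul, mul_one]
    have h2 : ((Finset.range N).filter fun j : ℕ =>
        ∀ s ∈ Set.Ioo (x + j * d) (x + j * d + d), s ∉ oddZ (P i).Λ ∩ Set.Ioo x (x + h)).card ≤
        ((Finset.range N).filter fun j : ℕ =>
        ∀ s ∈ Set.Ioo (x + j * d) (x + j * d + d), s ∉ oddZ (P i).Λ).card := by
      refine Finset.card_le_card fun j hj => ?_
      rw [Finset.mem_filter] at hj ⊢
      refine ⟨hj.1, fun s hs hsZ => hj.2 s hs ⟨hsZ, ?_, ?_⟩⟩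
      · have : (0 : ℝ) ≤ j * d := by positivity
        linarith [hs.1]
      · have h5 : (j : ℝ) + 1 ≤ N := by exact_mod_cast (Finset.mem_range.1 hj.1)
        have h6 : ((j : ℝ) + 1) * d ≤ N * d := by gcongr
        rw [hNd] at h6
        linarith [hs.2]
    have h3 : n + 2 ≤ ((Finset.range N).filter fun j : ℕ =>
        ∀ s ∈ Set.Ioo (x + j * d) (x + j * d + d), s ∉ oddZ (P i).Λ).card := by
      rw [hN] at h1 h2 ⊢
      omega
    exact_mod_cast h3
  have hdouble : (S.card : ℝ) * ((n : ℝ) + 2) ≤ N * (4 * C' * Φ / (η * L)) := by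
    calc (S.card : ℝ) * ((n : ℝ) + 2) = ∑ i ∈ S, ((n : ℝ) + 2) := by
          rw [Finset.sum_const, nsmul_eq_mul]
      _ ≤ ∑ i ∈ S, ∑ j ∈ Finset.range N,
          if (∀ s ∈ Set.Ioo (x + j * d) (x + j * d + d), s ∉ oddZ (P i).Λ) then (1 : ℝ) else 0 :=
          Finset.sum_le_sum hper
      _ = ∑ j ∈ Finset.range N, ((S.filter fun i =>
          ∀ s ∈ Set.Ioo (x + j * d) (x + j * d + d), s ∉ oddZ (P i).Λ).card : ℝ) := by
          rw [Finset.sum_comm]
          refine Finset.sum_congr rfl fun j _ => ?_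
          rw [← Finset.sum_filter, Finset.sum_const, nsmul_eq_mul, mul_one]
      _ ≤ ∑ j ∈ Finset.range N, 4 * C' * Φ / (η * L) := Finset.sum_le_sum hcell
      _ = _ := by rw [Finset.sum_const, Finset.card_range, nsmul_eq_mul]
  set B : ℝ := 4 * C' * Φ / (η * L) with hB
  have hB0 : 0 ≤ B := by positivity
  have hN2 : (N : ℝ) ≤ 2 * ((n : ℝ) + 2) := by rw [hN]; push_cast; linarith
  have h7 : (S.card : ℝ) * ((n : ℝ) + 2) ≤ (2 * B) * ((n : ℝ) + 2) := by
    refine hdouble.trans ?_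
    calc N * B ≤ (2 * ((n : ℝ) + 2)) * B := by gcongr
      _ = _ := by ring
  have h8 : (S.card : ℝ) ≤ 2 * B := le_of_mul_le_mul_right h7 (by positivity)
  refine h8.trans (le_of_eq ?_)
  rw [hB]; ring

theorem Fam.uniform_short {C c T m δ M : ℝ} (hC : 0 ≤ C) (hc : 0 < c) (hm : 0 < m) (hδ : 0 < δ)
    (hM : 0 ≤ M) : ∃ C' : ℝ, 0 < C' ∧ ∀ (ι : Type) (S : Finset ι) (P : ι → Piece) (L Φ : ℝ),
      0 < L → Fam C c T m δ M S P L Φ → ∀ a b h H : ℝ, -T + 2 ≤ a → b + 2 ≤ T → 0 < H → H ≤ h →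
      h ≤ 1 → h ≤ b - a →
      (∀ i ∈ S, ∃ x : ℝ, a ≤ x ∧ x + h ≤ b ∧
        (oddZ (P i).Λ ∩ Set.Ioo x (x + h)).encard ≤ ⌊h / H⌋₊) →
      (S.card : ℝ) ≤ C' * (b - a) * Φ / (h * H * L) := by
  classical
  obtain ⟨C', hC', hw⟩ := Fam.short (T := T) hC hc hm hδ hM
  refine ⟨6 * C', by positivity, fun ι S P L Φ hL F a b h H ha hb hH hHh hh hba hS => ?_⟩
  have hφ : 0 ≤ Φ := le_trans (by positivity) F.card
  have hh0 : 0 < h := hH.trans_le hHh
  set g : ℝ := h / 2 with hg
  have hg0 : 0 < g := by positivity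
  set J : ℕ := ⌊(b - a) / g⌋₊ with hJ
  have hJle : (J : ℝ) ≤ (b - a) / g := Nat.floor_le (div_nonneg (by linarith) hg0.le)
  set Q : Finset ℕ := (Finset.range (J + 1)).filter (fun j : ℕ => a + j * g + g ≤ b) with hQ
  set G : ℕ → Finset ι := fun j => S.filter fun i =>
    (oddZ (P i).Λ ∩ Set.Ioo (a + j * g) (a + j * g + g)).encard ≤ ⌊g / (H / 2)⌋₊ with hG
  have hcover : S ⊆ Q.biUnion G := by
    intro i hi
    obtain ⟨x, hx, hx', hN⟩ := hS i hi
    set j : ℕ := ⌈(x - a) / g⌉₊ with hj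
    have h1 : (x - a) / g ≤ j := Nat.le_ceil _
    have h2 : (j : ℝ) < (x - a) / g + 1 := Nat.ceil_lt_add_one (div_nonneg (by linarith) hg0.le)
    rw [div_le_iff₀ hg0] at h1
    have h3 : (j : ℝ) * g < (x - a) + g := by
      have := mul_lt_mul_of_pos_right h2 hg0
      rw [add_mul, div_mul_cancel₀ _ hg0.ne', one_mul] at this
      exact this
    have h4 : a + j * g + g ≤ b := by rw [hg] at h3 ⊢; linarith
    have h5 : j ≤ J := by
      rw [hJ]
      apply Nat.le_floor
      rw [le_div_iff₀ hg0]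
      linarith
    rw [Finset.mem_biUnion]
    refine ⟨j, ?_, ?_⟩
    · rw [hQ, Finset.mem_filter]
      exact ⟨Finset.mem_range.2 (by omega), h4⟩
    · rw [hG, Finset.mem_filter]
      refine ⟨hi, ?_⟩
      have e1 : g / (H / 2) = h / H := by rw [hg]; field_simp
      rw [e1]
      refine le_trans (Set.encard_le_encard ?_) hN
      intro s hs
      refine ⟨hs.1, ?_, ?_⟩
      · have := hs.2.1
        linarith
      · have := hs.2.2
        rw [hg] at h3 this
        linarith
  have h7 : ∀ j ∈ Q, ((G j).card : ℝ) ≤ 2 * C' * Φ / (H * L) := by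
    intro j hj
    rw [hQ, Finset.mem_filter] at hj
    have hj0 : (0 : ℝ) ≤ j * g := by positivity
    have := hw ι (G j) P L Φ hL (F.mono (Finset.filter_subset _ _)) (a + j * g) (H / 2) g
      (by
        have h0 : |a + j * g| ≤ T - 2 := by rw [abs_le]; constructor <;> linarith [hj.2]
        linarith)
      (by positivity) (by rw [hg]; linarith) (by rw [hg]; linarith)
      (fun i hi => (Finset.mem_filter.1 hi).2)
    refine this.trans (le_of_eq ?_)
    field_simp
  have h8 : (S.card : ℝ) ≤ (J + 1) * (2 * C' * Φ / (H * L)) := by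
    calc (S.card : ℝ) ≤ (Q.biUnion G).card := by exact_mod_cast Finset.card_le_card hcover
      _ ≤ ∑ j ∈ Q, ((G j).card : ℝ) := by exact_mod_cast Finset.card_biUnion_le
      _ ≤ ∑ j ∈ Q, 2 * C' * Φ / (H * L) := Finset.sum_le_sum h7
      _ = Q.card * (2 * C' * Φ / (H * L)) := by rw [Finset.sum_const, nsmul_eq_mul]
      _ ≤ (J + 1) * (2 * C' * Φ / (H * L)) := by
          have h9 : (Q.card : ℝ) ≤ J + 1 := by
            have := Finset.card_filter_le (Finset.range (J + 1)) (fun j : ℕ => a + j * g + g ≤ b)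
            rw [Finset.card_range] at this
            exact_mod_cast this
          gcongr
  refine h8.trans ?_
  have h10 : (J : ℝ) + 1 ≤ 3 * (b - a) / h := by
    have e2 : (b - a) / g = 2 * (b - a) / h := by rw [hg]; field_simp
    have e3 : 1 ≤ (b - a) / h := by rwa [one_le_div hh0]
    have e4 : 3 * (b - a) / h = 2 * (b - a) / h + (b - a) / h := by ring
    rw [e4, ← e2]
    linarith
  calc ((J : ℝ) + 1) * (2 * C' * Φ / (H * L))
      ≤ 3 * (b - a) / h * (2 * C' * Φ / (H * L)) := by gcongr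
    _ = 6 * C' * (b - a) * Φ / (h * H * L) := by
        field_simp
        ring

/-- **the uniform abstract endgame** -/
theorem Fam.uniform {C c T m δ M : ℝ} (hC : 0 ≤ C) (hc : 0 < c) (hm : 0 < m) (hδ : 0 < δ)
    (hM : 0 ≤ M) : ∃ C' : ℝ, 0 < C' ∧ ∀ (ι : Type) (S : Finset ι) (P : ι → Piece) (L Φ : ℝ),
      0 < L → Fam C c T m δ M S P L Φ → ∀ a b h H : ℝ, -T + 2 ≤ a → b + 2 ≤ T → 0 < H → H ≤ h →
      h ≤ b - a →
      (∀ i ∈ S, ∃ x : ℝ, a ≤ x ∧ x + h ≤ b ∧
        (oddZ (P i).Λ ∩ Set.Ioo x (x + h)).encard ≤ ⌊h / H⌋₊) →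
      (S.card : ℝ) ≤ C' * (b - a) * Φ / (h * H * L) := by
  obtain ⟨C', hC', hw⟩ := Fam.uniform_short (T := T) hC hc hm hδ hM
  refine ⟨C' * max 1 (4 * T ^ 2), by positivity,
    fun ι S P L Φ hL F a b h H ha hb hH hHh hba hS => ?_⟩
  have hφ : 0 ≤ Φ := le_trans (by positivity) F.card
  have hh0 : 0 < h := hH.trans_le hHh
  have hba0 : 0 < b - a := by linarith
  rcases le_or_gt h 1 with h1 | h1
  · refine (hw ι S P L Φ hL F a b h H ha hb hH hHh h1 hba hS).trans ?_
    have h2 : C' ≤ C' * max 1 (4 * T ^ 2) := by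
      nlinarith [le_max_left 1 (4 * T ^ 2)]
    gcongr
  · have e1 : (1 : ℝ) / (H / h) = h / H := by field_simp
    have key := hw ι S P L Φ hL F a b 1 (H / h) ha hb (by positivity)
      (by rw [div_le_one hh0]; exact hHh) le_rfl (by linarith) (fun i hi => by
        obtain ⟨x, hx, hx', hN⟩ := hS i hi
        rw [e1]
        refine ⟨x, hx, by linarith, le_trans (Set.encard_le_encard ?_) hN⟩
        intro s hs
        exact ⟨hs.1, hs.2.1, by linarith [hs.2.2]⟩)
    refine key.trans ?_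
    have e2 : C' * (b - a) * Φ / (1 * (H / h) * L) =
        C' * h ^ 2 * (b - a) * Φ / (h * H * L) := by
      field_simp
    rw [e2]
    have h3 : h ^ 2 ≤ max 1 (4 * T ^ 2) := by
      refine le_trans ?_ (le_max_right _ _)
      have h4 : h ≤ 2 * T := by linarith
      nlinarith
    gcongr

end Pool.Agent.ABS
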